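import Mathlib

/-!
Arithmetical formulas with parameters, models of `ACA_0`, and Hindman's theorem for two colours
and sums of at most two elements.
-/

namespace Pool.Agent.HTA

universe u v w

/-- number terms of the language of second-order arithmetic, with parameters from `M` -/
inductive Tm (M : Type u) : Type u
  | var (i : ℕ) : Tm M
  | par (a : M) : Tm M
  | add (s t : Tm M) : Tm M
  | mul (s t : Tm M) : Tm M

/-- arithmetical formulas (no set quantifiers) with number parameters from `M` and with sets as
parameters; bound variables are de Bruijn indices: in `all φ` the variable `0` of `φ` is bound and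
the variable `i + 1` of `φ` is the variable `i` of `all φ` -/
inductive Fm (M : Type u) : Type u
  | eq (s t : Tm M) : Fm M
  | lt (s t : Tm M) : Fm M
  | mem (t : Tm M) (A : Set M) : Fm M
  | not (φ : Fm M) : Fm M
  | and (φ ψ : Fm M) : Fm M
  | all (φ : Fm M) : Fm M

/-- the value of a term under the assignment `e` -/
def Tm.val {M : Type u} [Add M] [Mul M] (e : ℕ → M) : Tm M → M
  | .var i => e i
  | .par a => a
  | .add s t => s.val e + t.val e
  | .mul s t => s.val e * t.val e

/-- the assignment with value `a` at the variable `0` and the values of `e` at the others -/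
def scons {M : Type u} (a : M) (e : ℕ → M) : ℕ → M
  | 0 => a
  | i + 1 => e i

/-- satisfaction of a formula under the assignment `e` -/
def Fm.Sat {M : Type u} [Add M] [Mul M] [LT M] : (e : ℕ → M) → Fm M → Prop
  | e, .eq s t => s.val e = t.val e
  | e, .lt s t => s.val e < t.val e
  | e, .mem t A => t.val e ∈ A
  | e, .not φ => ¬ φ.Sat e
  | e, .and φ ψ => φ.Sat e ∧ ψ.Sat e
  | e, .all φ => ∀ a : M, φ.Sat (scons a e)

/-- all set parameters of the formula belong to `S` -/
def Fm.Over {M : Type u} (S : Set (Set M)) : Fm M → Prop
  | .eq _ _ => True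
  | .lt _ _ => True
  | .mem _ A => A ∈ S
  | .not φ => φ.Over S
  | .and φ ψ => φ.Over S ∧ ψ.Over S
  | .all φ => φ.Over S

/-- `(M, S)` is a model of `ACA_0`: the first-order part `M` is a discretely ordered commutative
semiring whose order is the natural one (that is, a model of `PA^-`), `S` is the collection of
sets, the induction axiom holds for the sets in `S`, and `S` is closed under arithmetical
comprehension with parameters from `M` and `S` -/
structure IsModelACA0 {M : Type u} [CommSemiring M] [LinearOrder M] [IsStrictOrderedRing M]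
    [CanonicallyOrderedAdd M] (S : Set (Set M)) : Prop where
  discrete : ∀ a b : M, a < b → a + 1 ≤ b
  induction : ∀ A ∈ S, (0 : M) ∈ A → (∀ n, n ∈ A → n + 1 ∈ A) → ∀ n, n ∈ A
  comprehension : ∀ φ : Fm M, φ.Over S → {n : M | φ.Sat (fun _ => n)} ∈ S

/-- `HT^{≤2}_2` holds in `(M, S)`: for every colouring `c` of `M` with two colours whose colour
classes are in `S` there is an unbounded set `X` of positive elements, `X ∈ S`, such that `c` is
constant on the sums of one or two distinct elements of `X` -/
def HoldsHT22 {M : Type u} [CommSemiring M] [LinearOrder M] (S : Set (Set M)) : Prop :=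
  ∀ c : M → Bool, {n | c n = true} ∈ S → ∃ X ∈ S, (∀ b, ∃ x ∈ X, b < x) ∧ (∀ x ∈ X, 0 < x) ∧
    ∃ i : Bool, (∀ x ∈ X, c x = i) ∧ ∀ x ∈ X, ∀ y ∈ X, x ≠ y → c (x + y) = i

end Pool.Agent.HTA
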