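import Mathlib
import Pool.Agent.HTA.Defs

/-!
Substitution in formulas; definable relations between assignments.
-/

namespace Pool.Agent.HTA

universe u

/-- even part of an assignment -/
def evn {M : Type u} (ρ : ℕ → M) : ℕ → M := fun i => ρ (2 * i)

/-- odd part of an assignment -/
def odd {M : Type u} (ρ : ℕ → M) : ℕ → M := fun i => ρ (2 * i + 1)

/-- definable relations between assignments -/
def DA {M : Type u} [CommSemiring M] [LinearOrder M] (S : Set (Set M)) (R : (ℕ → M) → Prop) :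
    Prop :=
  ∃ φ : Fm M, φ.Over S ∧ ∀ ρ, φ.Sat ρ ↔ R ρ

/-- simultaneous substitution in terms -/
def Tm.subst {M : Type u} (s : ℕ → Tm M) : Tm M → Tm M
  | .var i => s i
  | .par a => .par a
  | .add a b => .add (a.subst s) (b.subst s)
  | .mul a b => .mul (a.subst s) (b.subst s)

/-- the substitution under one quantifier -/
def Tm.lift {M : Type u} (s : ℕ → Tm M) : ℕ → Tm M
  | 0 => .var 0
  | i + 1 => (s i).subst (fun j => .var (j + 1))

/-- simultaneous substitution in formulas -/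
def Fm.subst {M : Type u} : (ℕ → Tm M) → Fm M → Fm M
  | s, .eq a b => .eq (a.subst s) (b.subst s)
  | s, .lt a b => .lt (a.subst s) (b.subst s)
  | s, .mem a A => .mem (a.subst s) A
  | s, .not φ => .not (φ.subst s)
  | s, .and φ ψ => .and (φ.subst s) (ψ.subst s)
  | s, .all φ => .all (φ.subst (Tm.lift s))

variable {M : Type u} [CommSemiring M] [LinearOrder M] {S : Set (Set M)}

omit [LinearOrder M] in
theorem fs_val_subst (s : ℕ → Tm M) (e : ℕ → M) (t : Tm M) :
    (t.subst s).val e = t.val (fun i => (s i).val e) := by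
  induction t with
  | var i => rfl
  | par a => rfl
  | add a b ha hb => simp only [Tm.subst, Tm.val, ha, hb]
  | mul a b ha hb => simp only [Tm.subst, Tm.val, ha, hb]

omit [LinearOrder M] in
theorem fs_lift (s : ℕ → Tm M) (e : ℕ → M) (a : M) :
    (fun i => (Tm.lift s i).val (scons a e)) = scons a (fun i => (s i).val e) := by
  funext i
  cases i with
  | zero => rfl
  | succ i => simp only [Tm.lift, fs_val_subst, scons, Tm.val]

theorem fs_sat_subst (φ : Fm M) : ∀ (s : ℕ → Tm M) (e : ℕ → M),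
    (φ.subst s).Sat e ↔ φ.Sat (fun i => (s i).val e) := by
  induction φ with
  | eq a b => intro s e; simp only [Fm.subst, Fm.Sat, fs_val_subst]
  | lt a b => intro s e; simp only [Fm.subst, Fm.Sat, fs_val_subst]
  | mem a A => intro s e; simp only [Fm.subst, Fm.Sat, fs_val_subst]
  | not φ ih => intro s e; simp only [Fm.subst, Fm.Sat, ih]
  | and φ ψ ih ih' => intro s e; simp only [Fm.subst, Fm.Sat, ih, ih']
  | all φ ih =>
    intro s e
    simp only [Fm.subst, Fm.Sat, ih, fs_lift]

omit [CommSemiring M] [LinearOrder M] in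
theorem fs_over_subst (φ : Fm M) : ∀ s : ℕ → Tm M, φ.Over S → (φ.subst s).Over S := by
  induction φ with
  | eq a b => intro s h; exact h
  | lt a b => intro s h; exact h
  | mem a A => intro s h; exact h
  | not φ ih => intro s h; exact ih s h
  | and φ ψ ih ih' => intro s h; exact ⟨ih s h.1, ih' s h.2⟩
  | all φ ih => intro s h; exact ih _ h

theorem DA_congr {R R' : (ℕ → M) → Prop} (h : DA S R) (h' : ∀ ρ, R ρ ↔ R' ρ) : DA S R' := by
  obtain ⟨φ, h1, h2⟩ := h
  exact ⟨φ, h1, fun ρ => (h2 ρ).trans (h' ρ)⟩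

theorem DA_eq (s t : Tm M) : DA S (fun ρ => s.val ρ = t.val ρ) :=
  ⟨.eq s t, trivial, fun _ => Iff.rfl⟩

theorem DA_lt (s t : Tm M) : DA S (fun ρ => s.val ρ < t.val ρ) :=
  ⟨.lt s t, trivial, fun _ => Iff.rfl⟩

theorem DA_mem (t : Tm M) {X : Set M} (hX : X ∈ S) : DA S (fun ρ => t.val ρ ∈ X) :=
  ⟨.mem t X, hX, fun _ => Iff.rfl⟩

theorem DA_not {R : (ℕ → M) → Prop} (h : DA S R) : DA S (fun ρ => ¬ R ρ) := by
  obtain ⟨φ, h1, h2⟩ := h
  exact ⟨.not φ, h1, fun ρ => not_congr (h2 ρ)⟩

theorem DA_and {R R' : (ℕ → M) → Prop} (h : DA S R) (h' : DA S R') :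
    DA S (fun ρ => R ρ ∧ R' ρ) := by
  obtain ⟨φ, h1, h2⟩ := h
  obtain ⟨ψ, h3, h4⟩ := h'
  exact ⟨.and φ ψ, ⟨h1, h3⟩, fun ρ => and_congr (h2 ρ) (h4 ρ)⟩

theorem DA_or {R R' : (ℕ → M) → Prop} (h : DA S R) (h' : DA S R') :
    DA S (fun ρ => R ρ ∨ R' ρ) :=
  DA_congr (DA_not (DA_and (DA_not h) (DA_not h'))) fun ρ => by tauto

theorem DA_iff {R R' : (ℕ → M) → Prop} (h : DA S R) (h' : DA S R') :
    DA S (fun ρ => (R ρ ↔ R' ρ)) :=
  DA_congr (DA_or (DA_and h h') (DA_and (DA_not h) (DA_not h'))) fun ρ => by tauto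

/-- closure under simultaneous substitution of terms -/
theorem DA_subst {R : (ℕ → M) → Prop} (h : DA S R) (σ : ℕ → Tm M) :
    DA S (fun ρ => R (fun i => (σ i).val ρ)) := by
  obtain ⟨φ, h1, h2⟩ := h
  exact ⟨φ.subst σ, fs_over_subst φ σ h1, fun ρ => (fs_sat_subst φ σ ρ).trans (h2 _)⟩

theorem DA_ex1 {R : (ℕ → M) → Prop} (h : DA S R) : DA S (fun ρ => ∃ a, R (scons a ρ)) := by
  obtain ⟨φ, h1, h2⟩ := h
  refine ⟨.not (.all (.not φ)), h1, fun ρ => ?_⟩
  simp only [Fm.Sat, h2, not_forall, not_not]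

/-- reindexing used in the step of `DA_exd` -/
def fsIdx (i : ℕ) : ℕ := if i % 2 = 0 then i + 2 else if i = 1 then 0 else i - 2

/-- quantification over finitely many coordinates -/
theorem DA_exd (d : ℕ) {R : (ℕ → M) → (ℕ → M) → Prop} (h : DA S (fun ρ => R (evn ρ) (odd ρ)))
    (hd : ∀ ρ τ τ', (∀ i, i < d → τ i = τ' i) → (R ρ τ ↔ R ρ τ')) :
    DA S (fun ρ => ∃ τ, R ρ τ) := by
  induction d generalizing R with
  | zero =>
    refine DA_congr (DA_subst h (fun i => .var (i / 2))) fun ρ => ?_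
    have h1 : evn (fun i => (Tm.var (i / 2) : Tm M).val ρ) = ρ := by
      funext i
      simp only [evn, Tm.val]
      congr 1
      omega
    have h2 : odd (fun i => (Tm.var (i / 2) : Tm M).val ρ) = ρ := by
      funext i
      simp only [odd, Tm.val]
      congr 1
      omega
    rw [h1, h2]
    constructor
    · intro h3
      exact ⟨ρ, h3⟩
    · rintro ⟨τ, h3⟩
      exact (hd ρ τ ρ (fun i hi => absurd hi (Nat.not_lt_zero i))).1 h3
  | succ d ih =>
    have h1 : DA S (fun ρ : ℕ → M => (fun ρ' τ : ℕ → M =>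
        R (fun i => ρ' (i + 1)) (scons (ρ' 0) τ)) (evn ρ) (odd ρ)) := by
      refine DA_congr (DA_subst h (fun i => .var (fsIdx i))) fun ρ => ?_
      have h2 : evn (fun i => (Tm.var (fsIdx i) : Tm M).val ρ) = fun i => evn ρ (i + 1) := by
        funext i
        simp only [evn, Tm.val, fsIdx]
        congr 1
        split_ifs <;> omega
      have h3 : odd (fun i => (Tm.var (fsIdx i) : Tm M).val ρ) = scons (evn ρ 0) (odd ρ) := by
        funext i
        cases i with
        | zero => simp [odd, Tm.val, fsIdx, scons, evn]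
        | succ i =>
          simp only [odd, Tm.val, fsIdx, scons]
          congr 1
          split_ifs <;> omega
      rw [h2, h3]
    have h4 := DA_ex1 (ih (R := fun ρ' τ : ℕ → M =>
        R (fun i => ρ' (i + 1)) (scons (ρ' 0) τ)) h1 (fun ρ τ τ' h5 => hd _ _ _ (fun i hi => by
      cases i with
      | zero => rfl
      | succ i => exact h5 i (by omega))))
    refine DA_congr h4 fun ρ => ?_
    constructor
    · rintro ⟨a, τ, h6⟩
      exact ⟨scons a τ, h6⟩
    · rintro ⟨τ, h6⟩
      refine ⟨τ 0, fun i => τ (i + 1), ?_⟩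
      have h7 : scons (scons (τ 0) ρ 0) (fun i => τ (i + 1)) = τ := by
        funext i
        cases i with
        | zero => rfl
        | succ i => rfl
      rw [h7]
      exact h6

end Pool.Agent.HTA
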