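import Mathlib
import Pool.Agent.HTA.Defs

/-!
The ordered ring of integers over a canonically ordered semiring (differences of elements).
-/

namespace Pool.Agent.HTA

universe u

variable (M : Type u) [CommSemiring M] [LinearOrder M] [IsStrictOrderedRing M]
  [CanonicallyOrderedAdd M]

/-- pairs `(a, b)` and `(c, d)` represent the same integer iff `a + d = c + b` -/
def zSetoid : Setoid (M × M) where
  r x y := x.1 + y.2 = y.1 + x.2
  iseqv := by
    refine ⟨fun _ => rfl, fun h => h.symm, fun {x y z} h1 h2 => ?_⟩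
    have h3 : (x.1 + z.2) + (y.1 + y.2) = (z.1 + x.2) + (y.1 + y.2) := by
      calc (x.1 + z.2) + (y.1 + y.2) = (x.1 + y.2) + (y.1 + z.2) := by ring
        _ = (y.1 + x.2) + (z.1 + y.2) := by rw [h1, h2]
        _ = (z.1 + x.2) + (y.1 + y.2) := by ring
    exact add_right_cancel h3

/-- the integers of `M` -/
def ZM : Type u := Quotient (zSetoid M)

variable {M}

/-- the difference `a - b` of two elements of `M` -/
def zsub (x : M × M) : ZM M := Quotient.mk (zSetoid M) x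

theorem zsub_eq_iff {x y : M × M} : zsub x = zsub y ↔ x.1 + y.2 = y.1 + x.2 := by
  constructor
  · intro h
    exact Quotient.exact h
  · intro h
    exact Quotient.sound h

theorem zsub_surj : Function.Surjective (zsub : M × M → ZM M) := by
  intro x
  exact Quotient.inductionOn x fun p => ⟨p, rfl⟩

/-- addition of integers -/
def zr_add (x y : ZM M) : ZM M :=
  Quotient.liftOn₂ x y (fun p q => zsub (p.1 + q.1, p.2 + q.2)) (by
    intro a b a' b' h1 h2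
    rw [zsub_eq_iff]
    have h1' : a.1 + a'.2 = a'.1 + a.2 := h1
    have h2' : b.1 + b'.2 = b'.1 + b.2 := h2
    show a.1 + b.1 + (a'.2 + b'.2) = a'.1 + b'.1 + (a.2 + b.2)
    calc a.1 + b.1 + (a'.2 + b'.2) = (a.1 + a'.2) + (b.1 + b'.2) := by ring
      _ = (a'.1 + a.2) + (b'.1 + b.2) := by rw [h1', h2']
      _ = a'.1 + b'.1 + (a.2 + b.2) := by ring)

/-- negation of integers -/
def zr_neg (x : ZM M) : ZM M :=
  Quotient.liftOn x (fun p => zsub (p.2, p.1)) (by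
    intro a a' h1
    rw [zsub_eq_iff]
    have h1' : a.1 + a'.2 = a'.1 + a.2 := h1
    show a.2 + a'.1 = a'.2 + a.1
    calc a.2 + a'.1 = a'.1 + a.2 := by ring
      _ = a.1 + a'.2 := h1'.symm
      _ = a'.2 + a.1 := by ring)

/-- multiplication of integers -/
def zr_mul (x y : ZM M) : ZM M :=
  Quotient.liftOn₂ x y (fun p q => zsub (p.1 * q.1 + p.2 * q.2, p.1 * q.2 + p.2 * q.1)) (by
    intro a b a' b' h1 h2
    rw [zsub_eq_iff]
    have h1' : a.1 + a'.2 = a'.1 + a.2 := h1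
    have h2' : b.1 + b'.2 = b'.1 + b.2 := h2
    show a.1 * b.1 + a.2 * b.2 + (a'.1 * b'.2 + a'.2 * b'.1) =
      a'.1 * b'.1 + a'.2 * b'.2 + (a.1 * b.2 + a.2 * b.1)
    have h3 : (a.1 * b.1 + a.2 * b.2 + (a'.1 * b'.2 + a'.2 * b'.1)) +
        (a'.2 * b.1 + a'.1 * b.2 + a'.1 * b.1 + a'.2 * b.2) =
        (a'.1 * b'.1 + a'.2 * b'.2 + (a.1 * b.2 + a.2 * b.1)) +
        (a'.2 * b.1 + a'.1 * b.2 + a'.1 * b.1 + a'.2 * b.2) := by
      calc (a.1 * b.1 + a.2 * b.2 + (a'.1 * b'.2 + a'.2 * b'.1)) +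
            (a'.2 * b.1 + a'.1 * b.2 + a'.1 * b.1 + a'.2 * b.2)
          = (a.1 + a'.2) * b.1 + (a'.1 + a.2) * b.2 + a'.1 * (b.1 + b'.2) +
            a'.2 * (b'.1 + b.2) := by ring
        _ = (a'.1 + a.2) * b.1 + (a.1 + a'.2) * b.2 + a'.1 * (b'.1 + b.2) +
            a'.2 * (b.1 + b'.2) := by rw [h1', h2']
        _ = (a'.1 * b'.1 + a'.2 * b'.2 + (a.1 * b.2 + a.2 * b.1)) +
            (a'.2 * b.1 + a'.1 * b.2 + a'.1 * b.1 + a'.2 * b.2) := by ring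
    exact add_right_cancel h3)

instance : Zero (ZM M) := ⟨zsub (0, 0)⟩
instance : One (ZM M) := ⟨zsub (1, 0)⟩
instance : Add (ZM M) := ⟨zr_add⟩
instance : Neg (ZM M) := ⟨zr_neg⟩
instance : Mul (ZM M) := ⟨zr_mul⟩

noncomputable instance : CommRing (ZM M) where
  nsmul := nsmulRec
  zsmul := zsmulRec
  add_assoc x y z := by
    obtain ⟨x, rfl⟩ := zsub_surj x
    obtain ⟨y, rfl⟩ := zsub_surj y
    obtain ⟨z, rfl⟩ := zsub_surj z
    refine zsub_eq_iff.mpr ?_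
    show (x.1 + y.1 + z.1) + (x.2 + (y.2 + z.2)) = (x.1 + (y.1 + z.1)) + (x.2 + y.2 + z.2)
    ring
  zero_add x := by
    obtain ⟨x, rfl⟩ := zsub_surj x
    refine zsub_eq_iff.mpr ?_
    show (0 + x.1) + x.2 = x.1 + (0 + x.2)
    ring
  add_zero x := by
    obtain ⟨x, rfl⟩ := zsub_surj x
    refine zsub_eq_iff.mpr ?_
    show (x.1 + 0) + x.2 = x.1 + (x.2 + 0)
    ring
  add_comm x y := by
    obtain ⟨x, rfl⟩ := zsub_surj x
    obtain ⟨y, rfl⟩ := zsub_surj y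
    refine zsub_eq_iff.mpr ?_
    show (x.1 + y.1) + (y.2 + x.2) = (y.1 + x.1) + (x.2 + y.2)
    ring
  neg_add_cancel x := by
    obtain ⟨x, rfl⟩ := zsub_surj x
    refine zsub_eq_iff.mpr ?_
    show (x.2 + x.1) + 0 = 0 + (x.1 + x.2)
    ring
  mul_assoc x y z := by
    obtain ⟨x, rfl⟩ := zsub_surj x
    obtain ⟨y, rfl⟩ := zsub_surj y
    obtain ⟨z, rfl⟩ := zsub_surj z
    refine zsub_eq_iff.mpr ?_
    show ((x.1 * y.1 + x.2 * y.2) * z.1 + (x.1 * y.2 + x.2 * y.1) * z.2) +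
        (x.1 * (y.1 * z.2 + y.2 * z.1) + x.2 * (y.1 * z.1 + y.2 * z.2)) =
      (x.1 * (y.1 * z.1 + y.2 * z.2) + x.2 * (y.1 * z.2 + y.2 * z.1)) +
        ((x.1 * y.1 + x.2 * y.2) * z.2 + (x.1 * y.2 + x.2 * y.1) * z.1)
    ring
  one_mul x := by
    obtain ⟨x, rfl⟩ := zsub_surj x
    refine zsub_eq_iff.mpr ?_
    show (1 * x.1 + 0 * x.2) + x.2 = x.1 + (1 * x.2 + 0 * x.1)
    ring
  mul_one x := by
    obtain ⟨x, rfl⟩ := zsub_surj x
    refine zsub_eq_iff.mpr ?_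
    show (x.1 * 1 + x.2 * 0) + x.2 = x.1 + (x.1 * 0 + x.2 * 1)
    ring
  mul_comm x y := by
    obtain ⟨x, rfl⟩ := zsub_surj x
    obtain ⟨y, rfl⟩ := zsub_surj y
    refine zsub_eq_iff.mpr ?_
    show (x.1 * y.1 + x.2 * y.2) + (y.1 * x.2 + y.2 * x.1) =
      (y.1 * x.1 + y.2 * x.2) + (x.1 * y.2 + x.2 * y.1)
    ring
  zero_mul x := by
    obtain ⟨x, rfl⟩ := zsub_surj x
    refine zsub_eq_iff.mpr ?_
    show (0 * x.1 + 0 * x.2) + 0 = 0 + (0 * x.2 + 0 * x.1)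
    ring
  mul_zero x := by
    obtain ⟨x, rfl⟩ := zsub_surj x
    refine zsub_eq_iff.mpr ?_
    show (x.1 * 0 + x.2 * 0) + 0 = 0 + (x.1 * 0 + x.2 * 0)
    ring
  left_distrib x y z := by
    obtain ⟨x, rfl⟩ := zsub_surj x
    obtain ⟨y, rfl⟩ := zsub_surj y
    obtain ⟨z, rfl⟩ := zsub_surj z
    refine zsub_eq_iff.mpr ?_
    show (x.1 * (y.1 + z.1) + x.2 * (y.2 + z.2)) +
        ((x.1 * y.2 + x.2 * y.1) + (x.1 * z.2 + x.2 * z.1)) =
      ((x.1 * y.1 + x.2 * y.2) + (x.1 * z.1 + x.2 * z.2)) +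
        (x.1 * (y.2 + z.2) + x.2 * (y.1 + z.1))
    ring
  right_distrib x y z := by
    obtain ⟨x, rfl⟩ := zsub_surj x
    obtain ⟨y, rfl⟩ := zsub_surj y
    obtain ⟨z, rfl⟩ := zsub_surj z
    refine zsub_eq_iff.mpr ?_
    show ((x.1 + y.1) * z.1 + (x.2 + y.2) * z.2) +
        ((x.1 * z.2 + x.2 * z.1) + (y.1 * z.2 + y.2 * z.1)) =
      ((x.1 * z.1 + x.2 * z.2) + (y.1 * z.1 + y.2 * z.2)) +
        ((x.1 + y.1) * z.2 + (x.2 + y.2) * z.1)
    ring

/-- the order of integers -/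
def zr_le (x y : ZM M) : Prop :=
  Quotient.liftOn₂ x y (fun p q => p.1 + q.2 ≤ q.1 + p.2) (by
    intro a b a' b' h1 h2
    have h1' : a.1 + a'.2 = a'.1 + a.2 := h1
    have h2' : b.1 + b'.2 = b'.1 + b.2 := h2
    refine propext ?_
    have h3 : (a.1 + b.2) + (a'.2 + b'.2) = (a'.1 + b'.2) + (a.2 + b.2) := by
      calc (a.1 + b.2) + (a'.2 + b'.2) = (a.1 + a'.2) + (b.2 + b'.2) := by ring
        _ = (a'.1 + a.2) + (b.2 + b'.2) := by rw [h1']
        _ = (a'.1 + b'.2) + (a.2 + b.2) := by ring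
    have h4 : (b.1 + a.2) + (a'.2 + b'.2) = (b'.1 + a'.2) + (a.2 + b.2) := by
      calc (b.1 + a.2) + (a'.2 + b'.2) = (b.1 + b'.2) + (a.2 + a'.2) := by ring
        _ = (b'.1 + b.2) + (a.2 + a'.2) := by rw [h2']
        _ = (b'.1 + a'.2) + (a.2 + b.2) := by ring
    show a.1 + b.2 ≤ b.1 + a.2 ↔ a'.1 + b'.2 ≤ b'.1 + a'.2
    rw [← add_le_add_iff_right (a'.2 + b'.2) (b := a.1 + b.2), h3, h4, add_le_add_iff_right])

theorem zr_le_iff {x y : M × M} : zr_le (zsub x) (zsub y) ↔ x.1 + y.2 ≤ y.1 + x.2 := Iff.rfl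

noncomputable instance : LinearOrder (ZM M) where
  le := zr_le
  le_refl x := by
    obtain ⟨x, rfl⟩ := zsub_surj x
    exact zr_le_iff.mpr le_rfl
  le_trans x y z h1 h2 := by
    obtain ⟨x, rfl⟩ := zsub_surj x
    obtain ⟨y, rfl⟩ := zsub_surj y
    obtain ⟨z, rfl⟩ := zsub_surj z
    rw [zr_le_iff] at h1 h2 ⊢
    have h3 : (x.1 + z.2) + (y.1 + y.2) ≤ (z.1 + x.2) + (y.1 + y.2) := by
      calc (x.1 + z.2) + (y.1 + y.2) = (x.1 + y.2) + (y.1 + z.2) := by ring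
        _ ≤ (y.1 + x.2) + (z.1 + y.2) := add_le_add h1 h2
        _ = (z.1 + x.2) + (y.1 + y.2) := by ring
    exact le_of_add_le_add_right h3
  le_antisymm x y h1 h2 := by
    obtain ⟨x, rfl⟩ := zsub_surj x
    obtain ⟨y, rfl⟩ := zsub_surj y
    rw [zr_le_iff] at h1 h2
    exact zsub_eq_iff.mpr (le_antisymm h1 h2)
  le_total x y := by
    obtain ⟨x, rfl⟩ := zsub_surj x
    obtain ⟨y, rfl⟩ := zsub_surj y
    rw [zr_le_iff, zr_le_iff]
    exact le_total _ _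
  toDecidableLE := Classical.decRel _

theorem zsub_le_iff {x y : M × M} : zsub x ≤ zsub y ↔ x.1 + y.2 ≤ y.1 + x.2 := Iff.rfl

theorem zsub_lt_iff {x y : M × M} : zsub x < zsub y ↔ x.1 + y.2 < y.1 + x.2 := by
  rw [← not_le, ← not_le, zsub_le_iff]

theorem zsub_add (x y : M × M) : zsub x + zsub y = zsub (x.1 + y.1, x.2 + y.2) := rfl

theorem zsub_mul (x y : M × M) :
    zsub x * zsub y = zsub (x.1 * y.1 + x.2 * y.2, x.1 * y.2 + x.2 * y.1) := rfl

theorem zsub_neg (x : M × M) : -zsub x = zsub (x.2, x.1) := rfl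

theorem zsub_zero : (0 : ZM M) = zsub (0, 0) := rfl

theorem zsub_one : (1 : ZM M) = zsub (1, 0) := rfl

instance : IsStrictOrderedRing (ZM M) := by
  have h1 : IsOrderedAddMonoid (ZM M) := by
    refine { add_le_add_left := fun x y h z => ?_ }
    obtain ⟨x, rfl⟩ := zsub_surj x
    obtain ⟨y, rfl⟩ := zsub_surj y
    obtain ⟨z, rfl⟩ := zsub_surj z
    rw [zsub_le_iff] at h
    rw [zsub_add, zsub_add, zsub_le_iff]
    have h2 : (x.1 + y.2) + (z.1 + z.2) ≤ (y.1 + x.2) + (z.1 + z.2) := add_le_add h le_rfl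
    refine le_trans (le_of_eq ?_) (h2.trans (le_of_eq ?_))
    · simp only
      ring
    · simp only
      ring
  have h2 : ZeroLEOneClass (ZM M) := by
    refine ⟨?_⟩
    rw [zsub_zero, zsub_one, zsub_le_iff]
    show (0 : M) + 0 ≤ 1 + 0
    rw [add_zero, add_zero]
    exact zero_le_one
  have h3 : Nontrivial (ZM M) := by
    refine ⟨0, 1, ?_⟩
    rw [zsub_zero, zsub_one, Ne, zsub_eq_iff]
    show ¬ (0 : M) + 0 = 1 + 0
    rw [add_zero, add_zero]
    exact zero_ne_one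
  refine IsStrictOrderedRing.of_mul_pos ?_
  intro x y hx hy
  obtain ⟨x, rfl⟩ := zsub_surj x
  obtain ⟨y, rfl⟩ := zsub_surj y
  rw [zsub_zero, zsub_lt_iff] at hx hy
  have hx' : x.2 < x.1 := by
    have : (0 : M) + x.2 < x.1 + 0 := hx
    simpa using this
  have hy' : y.2 < y.1 := by
    have : (0 : M) + y.2 < y.1 + 0 := hy
    simpa using this
  obtain ⟨a, ha⟩ := exists_add_of_le hx'.le
  obtain ⟨b, hb⟩ := exists_add_of_le hy'.le
  have ha0 : 0 < a := by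
    rcases (zero_le (a := a)).lt_or_eq with h | h
    · exact h
    · rw [← h, add_zero] at ha
      exact absurd ha.symm hx'.ne
  have hb0 : 0 < b := by
    rcases (zero_le (a := b)).lt_or_eq with h | h
    · exact h
    · rw [← h, add_zero] at hb
      exact absurd hb.symm hy'.ne
  rw [zsub_mul, zsub_zero, zsub_lt_iff]
  show (0 : M) + (x.1 * y.2 + x.2 * y.1) < (x.1 * y.1 + x.2 * y.2) + 0
  have hab : 0 < a * b := mul_pos ha0 hb0
  rw [ha, hb]
  calc (0 : M) + ((x.2 + a) * y.2 + x.2 * (y.2 + b))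
      = ((x.2 + a) * y.2 + x.2 * (y.2 + b)) + 0 := by ring
    _ < ((x.2 + a) * y.2 + x.2 * (y.2 + b)) + a * b := by
        exact add_lt_add_of_le_of_lt le_rfl hab
    _ = ((x.2 + a) * (y.2 + b) + x.2 * y.2) + 0 := by ring

/-- the embedding of `M` -/
noncomputable def ofM (a : M) : ZM M := zsub (a, 0)

theorem zsub_eq (x : M × M) : zsub x = ofM x.1 - ofM x.2 := by
  unfold ofM
  rw [sub_eq_add_neg, zsub_neg, zsub_add, zsub_eq_iff]
  show x.1 + (0 + x.2) = (x.1 + 0) + x.2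
  ring

@[simp] theorem ofM_zero : ofM (0 : M) = 0 := rfl
@[simp] theorem ofM_one : ofM (1 : M) = 1 := rfl
@[simp] theorem ofM_add (a b : M) : ofM (a + b) = ofM a + ofM b := by
  unfold ofM
  rw [zsub_add, zsub_eq_iff]
  show (a + b) + (0 + 0) = (a + b) + 0
  ring
@[simp] theorem ofM_mul (a b : M) : ofM (a * b) = ofM a * ofM b := by
  unfold ofM
  rw [zsub_mul, zsub_eq_iff]
  show (a * b) + (a * 0 + 0 * b) = (a * b + 0 * 0) + 0
  ring
@[simp] theorem ofM_inj {a b : M} : ofM a = ofM b ↔ a = b := by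
  unfold ofM
  rw [zsub_eq_iff]
  show a + 0 = b + 0 ↔ a = b
  rw [add_zero, add_zero]
@[simp] theorem ofM_le {a b : M} : ofM a ≤ ofM b ↔ a ≤ b := by
  unfold ofM
  rw [zsub_le_iff]
  show a + 0 ≤ b + 0 ↔ a ≤ b
  rw [add_zero, add_zero]
@[simp] theorem ofM_lt {a b : M} : ofM a < ofM b ↔ a < b := by
  unfold ofM
  rw [zsub_lt_iff]
  show a + 0 < b + 0 ↔ a < b
  rw [add_zero, add_zero]
theorem ofM_nonneg (a : M) : (0 : ZM M) ≤ ofM a := by
  rw [← ofM_zero, ofM_le]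
  exact zero_le
theorem exists_ofM {x : ZM M} (h : 0 ≤ x) : ∃ a, x = ofM a := by
  obtain ⟨x, rfl⟩ := zsub_surj x
  rw [zsub_zero, zsub_le_iff] at h
  have h' : x.2 ≤ x.1 := by
    have : (0 : M) + x.2 ≤ x.1 + 0 := h
    simpa using this
  obtain ⟨a, ha⟩ := exists_add_of_le h'
  refine ⟨a, ?_⟩
  unfold ofM
  rw [zsub_eq_iff]
  show x.1 + 0 = a + x.2
  rw [ha]
  ring

theorem zm_discrete (hd : ∀ a b : M, a < b → a + 1 ≤ b) {x y : ZM M} (h : x < y) :
    x + 1 ≤ y := by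
  obtain ⟨x, rfl⟩ := zsub_surj x
  obtain ⟨y, rfl⟩ := zsub_surj y
  rw [zsub_lt_iff] at h
  rw [zsub_one, zsub_add, zsub_le_iff]
  show (x.1 + 1) + y.2 ≤ y.1 + (x.2 + 0)
  have := hd _ _ h
  calc (x.1 + 1) + y.2 = (x.1 + y.2) + 1 := by ring
    _ ≤ y.1 + x.2 := this
    _ = y.1 + (x.2 + 0) := by ring

end Pool.Agent.HTA
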