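import Mathlib
import Pool.Agent.HTA.FmSub
import Pool.Agent.HTA.ZRing

/-!
Types represented by finite tuples of elements of `M`, and definable maps between them.
-/

namespace Pool.Agent.HTA

universe u v w

/-- types whose elements are represented by finite tuples of elements of `M` -/
class Env (M : Type u) [CommSemiring M] [LinearOrder M] (E : Type v) where
  pi : (ℕ → M) → E
  surj : Function.Surjective pi
  dim : ℕ
  congr : ∀ ρ ρ' : ℕ → M, (∀ i, i < dim → ρ i = ρ' i) → pi ρ = pi ρ'
  eqF : Fm M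
  eqF_over : ∀ S, eqF.Over S
  eqF_sat : ∀ ρ, eqF.Sat ρ ↔ pi (evn ρ) = pi (odd ρ)

/-- definable maps: the graph is given by an arithmetical formula with parameters from `(M, S)` -/
@[fun_prop]
def DF {M : Type u} [CommSemiring M] [LinearOrder M] (S : Set (Set M)) {A : Type v} {B : Type w}
    [Env M A] [Env M B] (f : A → B) : Prop :=
  DA S (fun ρ => f (Env.pi (evn ρ)) = Env.pi (odd ρ))

variable {M : Type u} [CommSemiring M] [LinearOrder M]

noncomputable instance envM : Env M M where
  pi ρ := ρ 0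
  surj := fun a => ⟨fun _ => a, rfl⟩
  dim := 1
  congr := fun _ _ h => h 0 Nat.one_pos
  eqF := .eq (.var 0) (.var 1)
  eqF_over := fun _ => trivial
  eqF_sat := fun _ => Iff.rfl

/-- the assignment with given even and odd parts -/
def envMix (ρ τ : ℕ → M) : ℕ → M := fun i => if i % 2 = 0 then ρ (i / 2) else τ (i / 2)

omit [CommSemiring M] [LinearOrder M] in
theorem env_evn_mix (ρ τ : ℕ → M) : evn (envMix ρ τ) = ρ := by
  funext i
  have h1 : 2 * i % 2 = 0 := by omega
  have h2 : 2 * i / 2 = i := by omega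
  simp only [evn, envMix, h1, h2, if_true]

omit [CommSemiring M] [LinearOrder M] in
theorem env_odd_mix (ρ τ : ℕ → M) : odd (envMix ρ τ) = τ := by
  funext i
  have h1 : ¬ (2 * i + 1) % 2 = 0 := by omega
  have h2 : (2 * i + 1) / 2 = i := by omega
  simp only [odd, envMix, h1, h2, if_false]

/-- pairs: the two components are represented by the even and the odd part -/
noncomputable instance envProd {A : Type v} {B : Type w} [Env M A] [Env M B] : Env M (A × B) where
  pi ρ := (Env.pi (evn ρ), Env.pi (odd ρ))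
  surj := by
    rintro ⟨a, b⟩
    obtain ⟨ρ, hρ⟩ := Env.surj (M := M) a
    obtain ⟨τ, hτ⟩ := Env.surj (M := M) b
    refine ⟨envMix ρ τ, ?_⟩
    show (Env.pi (evn (envMix ρ τ)), Env.pi (odd (envMix ρ τ))) = (a, b)
    rw [env_evn_mix, env_odd_mix, hρ, hτ]
  dim := 2 * max (Env.dim M A) (Env.dim M B)
  congr := by
    intro ρ ρ' h
    refine Prod.ext (Env.congr _ _ fun i hi => h _ ?_) (Env.congr _ _ fun i hi => h _ ?_)
    · have := le_max_left (Env.dim M A) (Env.dim M B)
      omega
    · have := le_max_right (Env.dim M A) (Env.dim M B)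
      omega
  eqF := .and ((Env.eqF A).subst (fun j => .var (2 * j - j % 2)))
    ((Env.eqF B).subst (fun j => .var (2 * j + 2 - j % 2)))
  eqF_over := fun S => ⟨fs_over_subst _ _ (Env.eqF_over S), fs_over_subst _ _ (Env.eqF_over S)⟩
  eqF_sat := by
    intro ρ
    have h1 : evn (fun j => (Tm.var (2 * j - j % 2) : Tm M).val ρ) = evn (evn ρ) := by
      funext i
      simp only [evn, Tm.val]
      congr 1
      omega
    have h2 : odd (fun j => (Tm.var (2 * j - j % 2) : Tm M).val ρ) = evn (odd ρ) := by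
      funext i
      simp only [evn, odd, Tm.val]
      congr 1
      omega
    have h3 : evn (fun j => (Tm.var (2 * j + 2 - j % 2) : Tm M).val ρ) = odd (evn ρ) := by
      funext i
      simp only [evn, odd, Tm.val]
      congr 1
      omega
    have h4 : odd (fun j => (Tm.var (2 * j + 2 - j % 2) : Tm M).val ρ) = odd (odd ρ) := by
      funext i
      simp only [odd, Tm.val]
      congr 1
      omega
    simp only [Fm.Sat, fs_sat_subst, Env.eqF_sat, h1, h2, h3, h4, Prod.mk.injEq]

/-- the formula: the first two coordinates are both zero or both nonzero -/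
def envIff : Fm M :=
  .and (.not (.and (.eq (.var 0) (.par 0)) (.not (.eq (.var 1) (.par 0)))))
    (.not (.and (.eq (.var 1) (.par 0)) (.not (.eq (.var 0) (.par 0)))))

theorem envIff_sat (ρ : ℕ → M) : envIff.Sat ρ ↔ (evn ρ 0 ≠ 0 ↔ odd ρ 0 ≠ 0) := by
  show (¬ (ρ 0 = 0 ∧ ¬ ρ 1 = 0) ∧ ¬ (ρ 1 = 0 ∧ ¬ ρ 0 = 0)) ↔ (ρ 0 ≠ 0 ↔ ρ 1 ≠ 0)
  by_cases h0 : ρ 0 = 0 <;> by_cases h1 : ρ 1 = 0 <;> simp [h0, h1]

variable [IsStrictOrderedRing M]

open Classical in
noncomputable instance envBool : Env M Bool where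
  pi ρ := decide (ρ 0 ≠ 0)
  surj := by
    intro b
    cases b with
    | false => exact ⟨fun _ => 0, by simp⟩
    | true => exact ⟨fun _ => 1, by simp⟩
  dim := 1
  congr := by
    intro ρ ρ' h
    simp only [h 0 Nat.one_pos]
  eqF := envIff
  eqF_over := fun _ => ⟨⟨trivial, trivial⟩, ⟨trivial, trivial⟩⟩
  eqF_sat := by
    intro ρ
    rw [envIff_sat]
    exact (decide_eq_decide).symm

noncomputable instance envProp : Env M Prop where
  pi ρ := ρ 0 ≠ 0
  surj := by
    intro p
    by_cases h : p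
    · exact ⟨fun _ => 1, by simp [h]⟩
    · exact ⟨fun _ => 0, by simp [h]⟩
  dim := 1
  congr := by
    intro ρ ρ' h
    simp only [h 0 Nat.one_pos]
  eqF := envIff
  eqF_over := fun _ => ⟨⟨trivial, trivial⟩, ⟨trivial, trivial⟩⟩
  eqF_sat := by
    intro ρ
    rw [envIff_sat]
    exact ⟨fun h => propext h, fun h => Eq.to_iff h⟩

variable [CanonicallyOrderedAdd M]

theorem env_zsub_eq (a b c d : M) : zsub (a, b) = zsub (c, d) ↔ a + d = c + b := by
  rw [zsub_eq, zsub_eq, sub_eq_sub_iff_add_eq_add, ← ofM_add, ← ofM_add, ofM_inj]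

noncomputable instance envZ : Env M (ZM M) where
  pi ρ := zsub (ρ 0, ρ 1)
  surj := by
    intro x
    obtain ⟨⟨a, b⟩, h⟩ := zsub_surj x
    exact ⟨fun i => if i = 0 then a else b, by simpa using h⟩
  dim := 2
  congr := by
    intro ρ ρ' h
    simp only [h 0 (by omega), h 1 (by omega)]
  eqF := .eq (.add (.var 0) (.var 3)) (.add (.var 1) (.var 2))
  eqF_over := fun _ => trivial
  eqF_sat := by
    intro ρ
    rw [env_zsub_eq]
    exact Iff.rfl

end Pool.Agent.HTA
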