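import Mathlib
import Pool.Agent.HTA.Env

/-!
Closure properties of the class of definable maps.
-/

set_option linter.unusedSectionVars false

namespace Pool.Agent.HTA

universe u

section ren

variable {M : Type u} [CommSemiring M] [LinearOrder M] {S : Set (Set M)}

/-- renaming of the variables of a binary relation between assignments -/
theorem rules_ren (R : (ℕ → M) → (ℕ → M) → Prop) (h : DA S (fun ρ => R (evn ρ) (odd ρ)))
    (s t : ℕ → ℕ) : DA S (fun ρ => R (fun i => ρ (s i)) (fun i => ρ (t i))) := by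
  have h1 := DA_subst h (fun i => Tm.var (if i % 2 = 0 then s (i / 2) else t (i / 2)))
  refine DA_congr h1 ?_
  intro ρ
  have e1 : evn (fun i => (Tm.var (if i % 2 = 0 then s (i / 2) else t (i / 2)) : Tm M).val ρ) =
      fun i => ρ (s i) := by
    funext i
    have h2 : 2 * i % 2 = 0 := by omega
    have h3 : 2 * i / 2 = i := by omega
    simp only [evn, Tm.val, h2, h3, if_true]
  have e2 : odd (fun i => (Tm.var (if i % 2 = 0 then s (i / 2) else t (i / 2)) : Tm M).val ρ) =
      fun i => ρ (t i) := by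
    funext i
    have h2 : ¬ (2 * i + 1) % 2 = 0 := by omega
    have h3 : (2 * i + 1) / 2 = i := by omega
    simp only [odd, Tm.val, h2, h3, if_false]
  rw [e1, e2]

/-- renaming of the variables of a unary relation -/
theorem rules_ren1 {R : (ℕ → M) → Prop} (h : DA S R)
    (s : ℕ → ℕ) : DA S (fun ρ => R (fun i => ρ (s i))) :=
  DA_subst h (fun i => Tm.var (s i))

/-- substitution of constants in the first variables -/
theorem rules_par (R : (ℕ → M) → (ℕ → M) → Prop) (h : DA S (fun ρ => R (evn ρ) (odd ρ)))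
    (κ : ℕ → M) (t : ℕ → ℕ) : DA S (fun ρ => R κ (fun i => ρ (t i))) := by
  have h1 := DA_subst h
    (fun i => if i % 2 = 0 then Tm.par (κ (i / 2)) else Tm.var (t (i / 2)))
  refine DA_congr h1 ?_
  intro ρ
  have e1 : evn (fun i => (if i % 2 = 0 then Tm.par (κ (i / 2)) else
      Tm.var (t (i / 2)) : Tm M).val ρ) = κ := by
    funext i
    have h2 : 2 * i % 2 = 0 := by omega
    have h3 : 2 * i / 2 = i := by omega
    simp only [evn, h2, h3, if_true, Tm.val]
  have e2 : odd (fun i => (if i % 2 = 0 then Tm.par (κ (i / 2)) else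
      Tm.var (t (i / 2)) : Tm M).val ρ) = fun i => ρ (t i) := by
    funext i
    have h2 : ¬ (2 * i + 1) % 2 = 0 := by omega
    have h3 : (2 * i + 1) / 2 = i := by omega
    simp only [odd, h2, h3, if_false, Tm.val]
  rw [e1, e2]

/-- substitution of constants in the last variables -/
theorem rules_par2 (R : (ℕ → M) → (ℕ → M) → Prop) (h : DA S (fun ρ => R (evn ρ) (odd ρ)))
    (κ : ℕ → M) (t : ℕ → ℕ) : DA S (fun ρ => R (fun i => ρ (t i)) κ) := by
  have h1 := DA_subst h
    (fun i => if i % 2 = 0 then Tm.var (t (i / 2)) else Tm.par (κ (i / 2)))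
  refine DA_congr h1 ?_
  intro ρ
  have e1 : evn (fun i => (if i % 2 = 0 then Tm.var (t (i / 2)) else
      Tm.par (κ (i / 2)) : Tm M).val ρ) = fun i => ρ (t i) := by
    funext i
    have h2 : 2 * i % 2 = 0 := by omega
    have h3 : 2 * i / 2 = i := by omega
    simp only [evn, h2, h3, if_true, Tm.val]
  have e2 : odd (fun i => (if i % 2 = 0 then Tm.var (t (i / 2)) else
      Tm.par (κ (i / 2)) : Tm M).val ρ) = κ := by
    funext i
    have h2 : ¬ (2 * i + 1) % 2 = 0 := by omega
    have h3 : (2 * i + 1) / 2 = i := by omega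
    simp only [odd, h2, h3, if_false, Tm.val]
  rw [e1, e2]

end ren

variable {M : Type u} [CommSemiring M] [LinearOrder M] [IsStrictOrderedRing M]
  [CanonicallyOrderedAdd M] {S : Set (Set M)}
  {A B C D : Type*} [Env M A] [Env M B] [Env M C] [Env M D]

/-- characterisation of definable predicates -/
theorem DF_prop_iff {p : A → Prop} : DF S p ↔ DA S (fun ρ : ℕ → M => p (Env.pi ρ)) := by
  constructor
  · intro h
    have h' : DA S (fun ρ : ℕ → M =>
        (fun a b : ℕ → M => p (Env.pi a) = (b 0 ≠ 0)) (evn ρ) (odd ρ)) := h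
    refine DA_congr (rules_par2 (fun a b : ℕ → M => p (Env.pi a) = (b 0 ≠ 0)) h'
      (fun _ => (1 : M)) (fun i => i)) ?_
    intro ρ
    simp
  · intro h
    have h1 := rules_ren1 h (fun i => 2 * i)
    have h2 : DA S (fun ρ : ℕ → M => ¬ ρ 1 = 0) := DA_not (DA_eq (.var 1) (.par 0))
    refine DA_congr (DA_iff h1 h2) ?_
    intro ρ
    constructor
    · intro h3
      exact propext h3
    · intro h3
      exact iff_of_eq h3

/-- equality in a represented type is definable -/
theorem rules_eq : DA S (fun ρ : ℕ → M =>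
    (fun a b : ℕ → M => (Env.pi a : A) = Env.pi b) (evn ρ) (odd ρ)) :=
  ⟨Env.eqF A, Env.eqF_over S, fun ρ => Env.eqF_sat ρ⟩

/-- quantification over a represented type -/
theorem rules_ex {R : (ℕ → M) → B → Prop} (h : DA S (fun ρ => R (evn ρ) (Env.pi (odd ρ)))) :
    DA S (fun ρ => ∃ b, R ρ b) := by
  have h1 : DA S (fun ρ : ℕ → M => ∃ τ : ℕ → M, (fun ρ τ => R ρ (Env.pi τ)) ρ τ) := by
    refine DA_exd (Env.dim M B) h ?_
    intro ρ τ τ' hτ
    simp only [Env.congr τ τ' hτ]
  refine DA_congr h1 ?_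
  intro ρ
  constructor
  · rintro ⟨τ, hτ⟩
    exact ⟨_, hτ⟩
  · rintro ⟨b, hb⟩
    obtain ⟨τ, rfl⟩ := Env.surj (M := M) b
    exact ⟨τ, hb⟩

@[fun_prop] theorem DF_id : DF S (fun x : A => x) := rules_eq
@[fun_prop] theorem DF_const (c : B) : DF S (fun _ : A => c) := by
  obtain ⟨κ, rfl⟩ := Env.surj (M := M) c
  exact rules_par (fun a b : ℕ → M => (Env.pi a : B) = Env.pi b) rules_eq κ
    (fun i => 2 * i + 1)
@[fun_prop] theorem DF_comp {f : B → C} {g : A → B} (hf : DF S f) (hg : DF S g) :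
    DF S (fun x => f (g x)) := by
  have h1 : DA S (fun ρ : ℕ → M => ∃ b : B, (fun (ρ : ℕ → M) (b : B) =>
      g (Env.pi (evn ρ)) = b ∧ f b = Env.pi (odd ρ)) ρ b) := by
    refine rules_ex ?_
    have hf' : DA S (fun ρ : ℕ → M => (fun a b : ℕ → M => f (Env.pi a) = Env.pi b)
      (evn ρ) (odd ρ)) := hf
    have hg' : DA S (fun ρ : ℕ → M => (fun a b : ℕ → M => g (Env.pi a) = Env.pi b)
      (evn ρ) (odd ρ)) := hg
    exact DA_and (rules_ren (fun a b : ℕ → M => g (Env.pi a) = Env.pi b) hg'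
        (fun i => 2 * (2 * i)) (fun i => 2 * i + 1))
      (rules_ren (fun a b : ℕ → M => f (Env.pi a) = Env.pi b) hf'
        (fun i => 2 * i + 1) (fun i => 2 * (2 * i + 1)))
  refine DA_congr h1 ?_
  intro ρ
  constructor
  · rintro ⟨b, hb1, hb2⟩
    subst hb1
    exact hb2
  · intro h
    exact ⟨_, rfl, h⟩
@[fun_prop] theorem DF_pair {f : A → B} {g : A → C} (hf : DF S f) (hg : DF S g) :
    DF S (fun x => (f x, g x)) := by
  have hf' : DA S (fun ρ : ℕ → M => (fun a b : ℕ → M => f (Env.pi a) = Env.pi b)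
      (evn ρ) (odd ρ)) := hf
  have hg' : DA S (fun ρ : ℕ → M => (fun a b : ℕ → M => g (Env.pi a) = Env.pi b)
      (evn ρ) (odd ρ)) := hg
  have h1 := DA_and (rules_ren (fun a b : ℕ → M => f (Env.pi a) = Env.pi b) hf'
      (fun i => 2 * i) (fun i => 2 * (2 * i) + 1))
    (rules_ren (fun a b : ℕ → M => g (Env.pi a) = Env.pi b) hg'
      (fun i => 2 * i) (fun i => 2 * (2 * i + 1) + 1))
  refine DA_congr h1 ?_
  intro ρ
  exact Prod.mk_inj.symm
theorem rules_fst : DF S (Prod.fst : A × B → A) :=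
  rules_ren (fun a b : ℕ → M => (Env.pi a : A) = Env.pi b) rules_eq
    (fun i => 2 * (2 * i)) (fun i => 2 * i + 1)
theorem rules_snd : DF S (Prod.snd : A × B → B) :=
  rules_ren (fun a b : ℕ → M => (Env.pi a : B) = Env.pi b) rules_eq
    (fun i => 2 * (2 * i + 1)) (fun i => 2 * i + 1)
@[fun_prop] theorem DF_fst {f : A → B × C} (hf : DF S f) : DF S (fun x => (f x).1) :=
  DF_comp rules_fst hf
@[fun_prop] theorem DF_snd {f : A → B × C} (hf : DF S f) : DF S (fun x => (f x).2) :=
  DF_comp rules_snd hf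
@[fun_prop] theorem DF_and {f g : A → Prop} (hf : DF S f) (hg : DF S g) :
    DF S (fun x => f x ∧ g x) :=
  DF_prop_iff.2 (DA_and (DF_prop_iff.1 hf) (DF_prop_iff.1 hg))
@[fun_prop] theorem DF_or {f g : A → Prop} (hf : DF S f) (hg : DF S g) :
    DF S (fun x => f x ∨ g x) :=
  DF_prop_iff.2 (DA_or (DF_prop_iff.1 hf) (DF_prop_iff.1 hg))
@[fun_prop] theorem DF_not {f : A → Prop} (hf : DF S f) : DF S (fun x => ¬ f x) :=
  DF_prop_iff.2 (DA_not (DF_prop_iff.1 hf))
@[fun_prop] theorem DF_iff {f g : A → Prop} (hf : DF S f) (hg : DF S g) :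
    DF S (fun x => f x ↔ g x) :=
  DF_prop_iff.2 (DA_iff (DF_prop_iff.1 hf) (DF_prop_iff.1 hg))
@[fun_prop] theorem DF_eq {f g : A → B} (hf : DF S f) (hg : DF S g) :
    DF S (fun x => f x = g x) := by
  refine DF_prop_iff.2 ?_
  have h1 : DA S (fun ρ : ℕ → M => ∃ b : B, (fun (ρ : ℕ → M) (b : B) =>
      f (Env.pi ρ) = b ∧ g (Env.pi ρ) = b) ρ b) :=
    rules_ex (DA_and hf hg)
  refine DA_congr h1 ?_
  intro ρ
  constructor
  · rintro ⟨b, hb1, hb2⟩
    exact hb1.trans hb2.symm
  · intro h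
    exact ⟨_, h, rfl⟩
@[fun_prop] theorem DF_ex {P : A → B → Prop} (hf : DF S (fun y : A × B => P y.1 y.2)) :
    DF S (fun x => ∃ b, P x b) :=
  DF_prop_iff.2 (rules_ex (R := fun (ρ : ℕ → M) b => P (Env.pi ρ) b) (DF_prop_iff.1 hf))

/-- use as `simp only [imp_iff_not_or, all_iff, ne_eq]` before `fun_prop` -/
theorem all_iff {α : Type*} (P : α → Prop) : (∀ b, P b) ↔ ¬ ∃ b, ¬ P b := not_exists_not.symm

theorem DF_graph {f : A → B} {P : A → B → Prop} (hf : ∀ a b, f a = b ↔ P a b)
    (hP : DF S (fun y : A × B => P y.1 y.2)) : DF S f :=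
  DA_congr (DF_prop_iff.1 hP) (fun _ => (hf _ _).symm)

@[fun_prop] theorem DF_ite {p : A → Prop} [DecidablePred p] {f g : A → B} (hp : DF S p)
    (hf : DF S f) (hg : DF S g) : DF S (fun x => if p x then f x else g x) := by
  refine DF_graph (P := fun x b => (p x ∧ f x = b) ∨ (¬ p x ∧ g x = b)) ?_ ?_
  · intro a b
    by_cases h : p a
    · simp [h]
    · simp [h]
  · fun_prop

@[fun_prop] theorem DF_decide {p : A → Prop} [DecidablePred p] (hp : DF S p) :
    DF S (fun x => decide (p x)) := by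
  refine DF_graph (P := fun x b => (p x ↔ b = true)) ?_ ?_
  · intro a b
    by_cases h : p a
    · simp [h, eq_comm]
    · simp [h, eq_comm]
  · fun_prop
@[fun_prop] theorem DF_not_bool {f : A → Bool} (hf : DF S f) : DF S (fun x => !(f x)) := by
  refine DF_graph (P := fun x b => ¬ f x = b) ?_ ?_
  · intro a b
    cases f a <;> cases b <;> simp
  · fun_prop

end Pool.Agent.HTA
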