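import Mathlib
import Pool.Agent.HTA.Rules

/-!
Definability of the operations on `M` and on its integers; comprehension and induction.
-/

namespace Pool.Agent.HTA

universe u

variable {M : Type u} [CommSemiring M] [LinearOrder M] [IsStrictOrderedRing M]
  [CanonicallyOrderedAdd M] {S : Set (Set M)} {A : Type*} [Env M A]

theorem zrl_lt_M : DF S (fun y : M × M => y.1 < y.2) := by
  rw [DF_prop_iff]
  exact DA_congr (DA_lt (.var 0) (.var 1)) fun ρ => Iff.rfl

@[fun_prop] theorem DF_lt_M {f g : A → M} (hf : DF S f) (hg : DF S g) :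
    DF S (fun x => f x < g x) :=
  DF_comp (f := fun y : M × M => y.1 < y.2) (g := fun x => (f x, g x)) zrl_lt_M (DF_pair hf hg)

@[fun_prop] theorem DF_le_M {f g : A → M} (hf : DF S f) (hg : DF S g) :
    DF S (fun x => f x ≤ g x) := by
  simp only [← not_lt]
  exact DF_not (DF_lt_M hg hf)

theorem zrl_add_M : DF S (fun y : M × M => y.1 + y.2) :=
  DA_congr (DA_eq (.add (.var 0) (.var 2)) (.var 1)) fun ρ => Iff.rfl

theorem zrl_mul_M : DF S (fun y : M × M => y.1 * y.2) :=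
  DA_congr (DA_eq (.mul (.var 0) (.var 2)) (.var 1)) fun ρ => Iff.rfl

@[fun_prop] theorem DF_add_M {f g : A → M} (hf : DF S f) (hg : DF S g) :
    DF S (fun x => f x + g x) :=
  DF_comp (f := fun y : M × M => y.1 + y.2) (g := fun x => (f x, g x)) zrl_add_M (DF_pair hf hg)
@[fun_prop] theorem DF_mul_M {f g : A → M} (hf : DF S f) (hg : DF S g) :
    DF S (fun x => f x * g x) :=
  DF_comp (f := fun y : M × M => y.1 * y.2) (g := fun x => (f x, g x)) zrl_mul_M (DF_pair hf hg)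

theorem zrl_ofM : DF S (fun a : M => ofM a) := by
  refine DA_congr (DA_eq (.add (.var 0) (.var 3)) (.var 1)) fun ρ => ?_
  show ρ 0 + ρ 3 = ρ 1 ↔ ofM (ρ 0) = zsub (ρ 1, ρ 3)
  rw [zsub_eq, eq_sub_iff_add_eq, ← ofM_add, ofM_inj]

@[fun_prop] theorem DF_ofM {f : A → M} (hf : DF S f) : DF S (fun x => ofM (f x)) :=
  DF_comp (f := fun a : M => ofM a) zrl_ofM hf

theorem zrl_lt : DF S (fun y : ZM M × ZM M => y.1 < y.2) := by
  rw [DF_prop_iff]
  refine DA_congr (DA_lt (.add (.var 0) (.var 3)) (.add (.var 1) (.var 2))) fun ρ => ?_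
  show ρ 0 + ρ 3 < ρ 1 + ρ 2 ↔ zsub (ρ 0, ρ 2) < zsub (ρ 1, ρ 3)
  rw [zsub_eq, zsub_eq, ← ofM_lt, ofM_add, ofM_add]
  constructor
  · intro h
    show ofM (ρ 0) - ofM (ρ 2) < ofM (ρ 1) - ofM (ρ 3)
    linarith
  · intro h
    have h : ofM (ρ 0) - ofM (ρ 2) < ofM (ρ 1) - ofM (ρ 3) := h
    linarith

@[fun_prop] theorem DF_lt {f g : A → ZM M} (hf : DF S f) (hg : DF S g) :
    DF S (fun x => f x < g x) :=
  DF_comp (f := fun y : ZM M × ZM M => y.1 < y.2) (g := fun x => (f x, g x)) zrl_lt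
    (DF_pair hf hg)
@[fun_prop] theorem DF_le {f g : A → ZM M} (hf : DF S f) (hg : DF S g) :
    DF S (fun x => f x ≤ g x) := by
  simp only [← not_lt]
  exact DF_not (DF_lt hg hf)

theorem zrl_add : DF S (fun y : ZM M × ZM M => y.1 + y.2) := by
  refine DA_congr (DA_eq (.add (.add (.var 0) (.var 2)) (.var 3))
    (.add (.add (.var 1) (.var 4)) (.var 6))) fun ρ => ?_
  show ρ 0 + ρ 2 + ρ 3 = ρ 1 + ρ 4 + ρ 6 ↔ zsub (ρ 0, ρ 4) + zsub (ρ 2, ρ 6) = zsub (ρ 1, ρ 3)
  rw [zsub_eq, zsub_eq, zsub_eq, ← ofM_inj]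
  simp only [ofM_add]
  constructor
  · intro h
    linear_combination h
  · intro h
    linear_combination h

@[fun_prop] theorem DF_add {f g : A → ZM M} (hf : DF S f) (hg : DF S g) :
    DF S (fun x => f x + g x) :=
  DF_comp (f := fun y : ZM M × ZM M => y.1 + y.2) (g := fun x => (f x, g x)) zrl_add
    (DF_pair hf hg)

theorem zrl_neg : DF S (fun y : ZM M => - y) := by
  refine DA_congr (DA_eq (.add (.var 2) (.var 3)) (.add (.var 1) (.var 0))) fun ρ => ?_
  show ρ 2 + ρ 3 = ρ 1 + ρ 0 ↔ - zsub (ρ 0, ρ 2) = zsub (ρ 1, ρ 3)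
  rw [zsub_eq, zsub_eq, ← ofM_inj]
  simp only [ofM_add]
  constructor
  · intro h
    linear_combination h
  · intro h
    linear_combination h

@[fun_prop] theorem DF_neg {f : A → ZM M} (hf : DF S f) : DF S (fun x => - f x) :=
  DF_comp (f := fun y : ZM M => - y) zrl_neg hf
@[fun_prop] theorem DF_sub {f g : A → ZM M} (hf : DF S f) (hg : DF S g) :
    DF S (fun x => f x - g x) := by
  simp only [sub_eq_add_neg]
  exact DF_add hf (DF_neg hg)

theorem zrl_mul : DF S (fun y : ZM M × ZM M => y.1 * y.2) := by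
  refine DA_congr (DA_eq
    (.add (.add (.mul (.var 0) (.var 2)) (.mul (.var 4) (.var 6))) (.var 3))
    (.add (.add (.var 1) (.mul (.var 0) (.var 6))) (.mul (.var 4) (.var 2)))) fun ρ => ?_
  show ρ 0 * ρ 2 + ρ 4 * ρ 6 + ρ 3 = ρ 1 + ρ 0 * ρ 6 + ρ 4 * ρ 2 ↔
    zsub (ρ 0, ρ 4) * zsub (ρ 2, ρ 6) = zsub (ρ 1, ρ 3)
  rw [zsub_eq, zsub_eq, zsub_eq, ← ofM_inj]
  simp only [ofM_add, ofM_mul]
  constructor
  · intro h
    linear_combination h
  · intro h
    linear_combination h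

@[fun_prop] theorem DF_mul {f g : A → ZM M} (hf : DF S f) (hg : DF S g) :
    DF S (fun x => f x * g x) :=
  DF_comp (f := fun y : ZM M × ZM M => y.1 * y.2) (g := fun x => (f x, g x)) zrl_mul
    (DF_pair hf hg)
@[fun_prop] theorem DF_abs {f : A → ZM M} (hf : DF S f) : DF S (fun x => |f x|) := by
  have h : (fun x => |f x|) = fun x => if 0 ≤ f x then f x else - f x := by
    funext x
    split_ifs with h
    · exact abs_of_nonneg h
    · exact abs_of_neg (not_le.1 h)
  rw [h]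
  exact DF_ite (DF_le (DF_const 0) hf) hf (DF_neg hf)

/-- the sets of the model are definable -/
theorem DF_mem {X : Set M} (hX : X ∈ S) : DF S (fun n : M => n ∈ X) := by
  rw [DF_prop_iff]
  exact DA_congr (DA_mem (.var 0) hX) fun ρ => Iff.rfl

/-- comprehension -/
theorem mem_of_DF (hS : IsModelACA0 S) {p : M → Prop} (hp : DF S p) : {n | p n} ∈ S := by
  rw [DF_prop_iff] at hp
  obtain ⟨φ, hφ, h⟩ := hp
  have h1 := hS.comprehension φ hφ
  have h2 : {n : M | φ.Sat (fun _ => n)} = {n | p n} := by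
    ext n
    exact h _
  rwa [h2] at h1

/-- induction for definable predicates on the integers -/
theorem Z_ind (hS : IsModelACA0 S) {p : ZM M → Prop} (hp : DF S p) (h0 : p 0)
    (hs : ∀ n, 0 ≤ n → p n → p (n + 1)) : ∀ n, 0 ≤ n → p n := by
  have h1 : {n : M | p (ofM n)} ∈ S :=
    mem_of_DF hS (DF_comp (f := p) (g := fun n : M => ofM n) hp zrl_ofM)
  have h2 := hS.induction _ h1 (by simpa using h0) (by
    intro n hn
    show p (ofM (n + 1))
    rw [ofM_add, ofM_one]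
    exact hs _ (ofM_nonneg n) hn)
  intro n hn
  obtain ⟨a, rfl⟩ := exists_ofM hn
  exact h2 a

/-- the order of the integers is discrete -/
theorem Z_disc (hS : IsModelACA0 S) {x y : ZM M} (h : x < y) : x + 1 ≤ y :=
  zm_discrete hS.discrete h

section test

example : DF S (fun x : ZM M × ZM M => x.1 + x.2 ≤ x.1) := by fun_prop
example (c : ZM M → Bool) (hc : DF S c) :
    DF S (fun x : ZM M × ZM M => c (x.1 + x.2) = c x.1) := by fun_prop
example (c : ZM M → Bool) (hc : DF S c) :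
    DF S (fun x : ZM M × ZM M => ∃ a, a ≤ x.1 ∧ c (x.1 + x.2) = c a) := by fun_prop
example (c : ZM M → ZM M → Bool) (hc : DF S (fun x : ZM M × ZM M => c x.1 x.2)) :
    DF S (fun x : ZM M × ZM M => ∃ a, a ≤ x.1 ∧ ∃ b : ZM M × ZM M, c (x.1 + b.2) 3 = c a b.1) := by
  fun_prop
example (c : ZM M → Bool) (z : ZM M → ZM M → Bool) (hc : DF S c)
    (hz : DF S (fun x : ZM M × ZM M => z x.1 x.2)) :
    DF S (fun x : ZM M × ZM M => ∀ n, x.2 ≤ n → (∀ a, |a| ≤ x.2 → c (a+n) = z n a) →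
      z (n + 2*x.1) n ≠ z x.1 0) := by
  simp only [imp_iff_not_or, all_iff, ne_eq]
  fun_prop
example (p : ZM M → Prop) (f g : ZM M → Bool) (hp : DF S p) (hf : DF S f) (hg : DF S g) [DecidablePred p] :
    DF S (fun x : ZM M => if p x then f x else g x) := by
  fun_prop
example (f : ZM M → Bool) (hf : DF S f) :
    DF S (fun x : ZM M × ZM M => f (if x.1 < x.2 then x.1 else x.2)) := by
  fun_prop
end test

end Pool.Agent.HTA
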