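import Mathlib
import Pool.Agent.HTA.ZRules

/-!
Least elements, bounding, division, parity and definable choice in the integers of a model.
-/

namespace Pool.Agent.HTA

universe u

variable {M : Type u} [CommSemiring M] [LinearOrder M] [IsStrictOrderedRing M]
  [CanonicallyOrderedAdd M] {S : Set (Set M)} {A : Type*} [Env M A]

theorem le_of_lt_add_one (hS : IsModelACA0 S) {a b : ZM M} (h : a < b + 1) : a ≤ b := by
  by_contra h'
  have := Z_disc hS (not_le.1 h')
  linarith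

theorem least (hS : IsModelACA0 S) {p : ZM M → Prop} (hp : DF S p) {a : ZM M} (ha : 0 ≤ a)
    (h : p a) : ∃ n, 0 ≤ n ∧ p n ∧ ∀ k, 0 ≤ k → k < n → ¬ p k := by
  by_contra hc
  push Not at hc
  have key : ∀ n, 0 ≤ n → (∀ k, 0 ≤ k → k ≤ n → ¬ p k) := by
    refine Z_ind hS ?_ ?_ ?_
    · simp only [imp_iff_not_or, all_iff]
      fun_prop
    · intro k hk hk' hpk
      obtain ⟨j, h1, h2, -⟩ := hc k hk hpk
      exact absurd (h2.trans_le hk') (not_lt.2 h1)
    · intro n hn ih k hk hk' hpk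
      obtain ⟨j, h1, h2, h3⟩ := hc k hk hpk
      exact ih j h1 (le_of_lt_add_one hS (h2.trans_le hk')) h3
  exact key a ha a ha le_rfl h

/-- bounding principle on intervals -/
theorem bounding (hS : IsModelACA0 S) {Q : ZM M → ZM M → Prop}
    (hQ : DF S (fun x : ZM M × ZM M => Q x.1 x.2))
    (hmono : ∀ a b b', b ≤ b' → Q a b → Q a b') (p q : ZM M)
    (h : ∀ a, p ≤ a → a ≤ q → ∃ b, Q a b) : ∃ b, ∀ a, p ≤ a → a ≤ q → Q a b := by
  have key : ∀ n, 0 ≤ n → ∃ b, ∀ a, p ≤ a → a ≤ p + n → a ≤ q → Q a b := by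
    refine Z_ind hS ?_ ?_ ?_
    · simp only [imp_iff_not_or, all_iff]
      fun_prop
    · by_cases hpq : p ≤ q
      · obtain ⟨b, hb⟩ := h p le_rfl hpq
        refine ⟨b, fun a h1 h2 _ => ?_⟩
        have : a = p := le_antisymm (by simpa using h2) h1
        rwa [this]
      · exact ⟨0, fun a h1 _ h3 => absurd (h1.trans h3) hpq⟩
    · rintro n hn ⟨b, hb⟩
      by_cases hpq : p + (n + 1) ≤ q
      · obtain ⟨b', hb'⟩ := h (p + (n + 1)) (by linarith) hpq
        refine ⟨max b b', fun a h1 h2 h3 => ?_⟩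
        rcases h2.lt_or_eq with h4 | h4
        · exact hmono a b _ (le_max_left _ _)
            (hb a h1 (le_of_lt_add_one hS (by linarith)) h3)
        · rw [h4]
          exact hmono _ b' _ (le_max_right _ _) hb'
      · refine ⟨b, fun a h1 h2 h3 => hb a h1 (le_of_lt_add_one hS ?_) h3⟩
        have := not_le.1 hpq
        linarith
  by_cases hpq : p ≤ q
  · obtain ⟨b, hb⟩ := key (q - p) (sub_nonneg.2 hpq)
    exact ⟨b, fun a h1 h2 => hb a h1 (by linarith) h2⟩
  · exact ⟨0, fun a h1 h2 => absurd (h1.trans h2) hpq⟩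

theorem div_mod_nonneg (hS : IsModelACA0 S) (m : ZM M) (hm : 0 < m) :
    ∀ a, 0 ≤ a → ∃ q r, a = q * m + r ∧ 0 ≤ r ∧ r < m := by
  refine Z_ind hS ?_ ?_ ?_
  · fun_prop
  · exact ⟨0, 0, by ring, le_rfl, hm⟩
  · rintro a ha ⟨q, r, h1, h2, h3⟩
    rcases (Z_disc hS h3).lt_or_eq with h4 | h4
    · exact ⟨q, r + 1, by rw [h1]; ring, by linarith, h4⟩
    · exact ⟨q + 1, 0, by rw [h1, ← h4]; ring, le_rfl, hm⟩

theorem div_mod (hS : IsModelACA0 S) (a m : ZM M) (hm : 0 < m) :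
    ∃ q r, a = q * m + r ∧ 0 ≤ r ∧ r < m := by
  rcases le_or_gt 0 a with ha | ha
  · exact div_mod_nonneg hS m hm a ha
  · obtain ⟨q, r, h1, h2, h3⟩ := div_mod_nonneg hS m hm (-a) (by linarith)
    rcases h2.lt_or_eq with h4 | h4
    · exact ⟨-q - 1, m - r, by linear_combination - h1, by linarith, by linarith⟩
    · exact ⟨-q, 0, by rw [← h4] at h1; linear_combination - h1, le_rfl, hm⟩

theorem div_mod_aux (hS : IsModelACA0 S) {m q r q' r' : ZM M} (hm : 0 < m) (hr1 : r < m)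
    (hr' : 0 ≤ r') (h : q * m + r = q' * m + r') : q' ≤ q := by
  by_contra hlt
  have h1 := Z_disc hS (not_le.1 hlt)
  have h2 : (q + 1) * m ≤ q' * m := mul_le_mul_of_nonneg_right h1 hm.le
  have h3 : (q + 1) * m = q * m + m := by ring
  linarith

theorem div_mod_unique (hS : IsModelACA0 S) {m q r q' r' : ZM M} (hr : 0 ≤ r) (hr1 : r < m)
    (hr' : 0 ≤ r') (hr1' : r' < m) (h : q * m + r = q' * m + r') : q = q' ∧ r = r' := by
  have hm : 0 < m := hr.trans_lt hr1
  have h1 := div_mod_aux hS hm hr1 hr' h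
  have h2 := div_mod_aux hS hm hr1' hr h.symm
  have h3 : q = q' := le_antisymm h2 h1
  refine ⟨h3, ?_⟩
  rw [h3] at h
  exact add_left_cancel h

theorem parity (hS : IsModelACA0 S) (n : ZM M) : ∃ k, n = 2 * k ∨ n = 2 * k + 1 := by
  obtain ⟨q, r, h1, h2, h3⟩ := div_mod hS n 2 two_pos
  refine ⟨q, ?_⟩
  rcases h2.lt_or_eq with h4 | h4
  · right
    have h5 := Z_disc hS h4
    have h6 : r ≤ 1 := le_of_lt_add_one hS (by linarith)
    have h7 : r = 1 := le_antisymm h6 (by linarith)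
    rw [h1, h7]
    ring
  · left
    rw [h1, ← h4]
    ring

/-- definable choice -/
theorem choice (hS : IsModelACA0 S) {R : A → ZM M → Prop}
    (hR : DF S (fun x : A × ZM M => R x.1 x.2)) (h : ∀ a, ∃ n, 0 ≤ n ∧ R a n) :
    ∃ f : A → ZM M, DF S f ∧ ∀ a, 0 ≤ f a ∧ R a (f a) := by
  have hR' : ∀ a, DF S (fun n => R a n) := fun a => by fun_prop
  have hl : ∀ a, ∃ n, 0 ≤ n ∧ R a n ∧ ∀ k, 0 ≤ k → k < n → ¬ R a k := fun a => by
    obtain ⟨n, hn, hn'⟩ := h a
    exact least hS (hR' a) hn hn'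
  choose f h1 h2 h3 using hl
  refine ⟨f, ?_, fun a => ⟨h1 a, h2 a⟩⟩
  refine DF_graph (P := fun a b => 0 ≤ b ∧ R a b ∧ ∀ k, 0 ≤ k → k < b → ¬ R a k) ?_ ?_
  · intro a b
    constructor
    · rintro rfl
      exact ⟨h1 a, h2 a, h3 a⟩
    · rintro ⟨h4, h5, h6⟩
      apply le_antisymm
      · by_contra h7
        exact h3 a b h4 (not_le.1 h7) h5
      · by_contra h7
        exact h6 (f a) (h1 a) (not_le.1 h7) (h2 a)
  · simp only [imp_iff_not_or, all_iff]
    fun_prop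

end Pool.Agent.HTA
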