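import Mathlib
import Pool.Agent.HTA.Arith

/-!
Goedel's beta function.
-/

namespace Pool.Agent.HTA

universe u

variable {M : Type u} [CommSemiring M] [LinearOrder M] [IsStrictOrderedRing M]
  [CanonicallyOrderedAdd M] {S : Set (Set M)}

open Classical in
/-- the beta function: the remainder of `s.1` modulo `1 + (i + 1) * s.2` -/
noncomputable def bt (s : ZM M × ZM M) (i : ZM M) : ZM M :=
  if h : ∃ r, 0 ≤ r ∧ r < 1 + (i + 1) * s.2 ∧ ∃ q, s.1 = q * (1 + (i + 1) * s.2) + r then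
    h.choose else 0

theorem bt_nonneg (s : ZM M × ZM M) (i : ZM M) : 0 ≤ bt s i := by
  unfold bt
  split_ifs with h
  · exact h.choose_spec.1
  · exact le_rfl

theorem bt_iff (hS : IsModelACA0 S) (s : ZM M × ZM M) (i r : ZM M) :
    bt s i = r ↔ (0 ≤ r ∧ r < 1 + (i + 1) * s.2 ∧ ∃ q, s.1 = q * (1 + (i + 1) * s.2) + r) ∨
      ((¬ ∃ r, 0 ≤ r ∧ r < 1 + (i + 1) * s.2 ∧ ∃ q, s.1 = q * (1 + (i + 1) * s.2) + r) ∧
        r = 0) := by
  unfold bt
  by_cases h : ∃ r, 0 ≤ r ∧ r < 1 + (i + 1) * s.2 ∧ ∃ q, s.1 = q * (1 + (i + 1) * s.2) + r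
  · rw [dif_pos h]
    obtain ⟨h1, h2, q, h3⟩ := h.choose_spec
    constructor
    · intro hr
      left
      rw [← hr]
      exact ⟨h1, h2, q, h3⟩
    · rintro (⟨h1', h2', q', h3'⟩ | ⟨h', -⟩)
      · exact (div_mod_unique hS h1 h2 h1' h2' (h3.symm.trans h3')).2
      · exact absurd h h'
  · rw [dif_neg h]
    constructor
    · intro hr
      right
      exact ⟨h, hr.symm⟩
    · rintro (h' | ⟨-, h'⟩)
      · exact absurd ⟨r, h'⟩ h
      · exact h'.symm

theorem bt_eq_of (hS : IsModelACA0 S) {s : ZM M × ZM M} {i r q : ZM M} (h0 : 0 ≤ r)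
    (h1 : r < 1 + (i + 1) * s.2) (h2 : s.1 = q * (1 + (i + 1) * s.2) + r) : bt s i = r :=
  (bt_iff hS s i r).2 (Or.inl ⟨h0, h1, q, h2⟩)

theorem DF_bt_aux (hS : IsModelACA0 S) :
    DF S (fun x : (ZM M × ZM M) × ZM M => bt x.1 x.2) := by
  refine DF_graph (fun a b => bt_iff hS a.1 a.2 b) ?_
  fun_prop

@[fun_prop] theorem DF_bt (hS : IsModelACA0 S) {A : Type*} [Env M A] {f : A → ZM M × ZM M}
    {g : A → ZM M} (hf : DF S f) (hg : DF S g) : DF S (fun x => bt (f x) (g x)) :=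
  DF_comp (f := fun x : (ZM M × ZM M) × ZM M => bt x.1 x.2) (g := fun x => (f x, g x))
    (DF_bt_aux hS) (DF_pair hf hg)

/-- a positive integer divisible by all integers from `1` to `n` -/
theorem exists_mult (hS : IsModelACA0 S) (n : ZM M) (hn : 0 ≤ n) :
    ∃ E : ZM M, 0 < E ∧ ∀ k, 1 ≤ k → k ≤ n → ∃ q, E = k * q := by
  refine Z_ind hS (p := fun n => ∃ E : ZM M, 0 < E ∧ ∀ k, 1 ≤ k → k ≤ n → ∃ q, E = k * q)
    ?_ ?_ ?_ n hn
  · simp only [imp_iff_not_or, all_iff, ne_eq]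
    fun_prop
  · refine ⟨1, one_pos, fun k h1 h2 => ?_⟩
    exact absurd (h1.trans h2) (not_le.2 one_pos)
  · rintro n hn ⟨E, hE, h⟩
    refine ⟨E * (n + 1), mul_pos hE (by linarith), fun k h1 h2 => ?_⟩
    rcases h2.lt_or_eq with h3 | h3
    · have h4 : k ≤ n := by
        by_contra h5
        have h6 := Z_disc hS (not_le.1 h5)
        linarith
      obtain ⟨q, hq⟩ := h k h1 h4
      exact ⟨q * (n + 1), by rw [hq]; ring⟩
    · exact ⟨E, by rw [h3]; ring⟩

/-- every definable sequence of nonnegative integers has codes of all its initial segments -/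
theorem bt_code (hS : IsModelACA0 S) {f : ZM M → ZM M} (hf : DF S f)
    (hpos : ∀ i, 0 ≤ i → 0 ≤ f i) (n : ZM M) (hn : 0 ≤ n) :
    ∃ s : ZM M × ZM M, ∀ i, 0 ≤ i → i < n → bt s i = f i := by
  obtain ⟨E, hE, hEd⟩ := exists_mult hS n hn
  obtain ⟨B, hB⟩ := bounding hS (Q := fun a b => f a ≤ b) (by fun_prop)
    (fun a b b' h h' => h'.trans h) 0 n (fun a _ _ => ⟨f a, le_rfl⟩)
  have hB0 : 0 ≤ B := (hpos 0 le_rfl).trans (hB 0 le_rfl hn)
  have hE1 : 1 ≤ E := by simpa using Z_disc hS hE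
  obtain ⟨D, hD⟩ : ∃ D, D = E * (B + 1) := ⟨_, rfl⟩
  have hDB : B + 1 ≤ D := by
    rw [hD]
    nlinarith
  have hDd : ∀ k, 1 ≤ k → k ≤ n → ∃ q, D = k * q := by
    intro k h1 h2
    obtain ⟨q, hq⟩ := hEd k h1 h2
    exact ⟨q * (B + 1), by rw [hD, hq]; ring⟩
  have key : ∀ k, 0 ≤ k → (k ≤ n → ∃ a P : ZM M,
      (∀ i, 0 ≤ i → i < k → (∃ q, P = (1 + (i + 1) * D) * q) ∧
        ∃ q, a = q * (1 + (i + 1) * D) + f i) ∧
      ∀ j, k ≤ j → j < n → ∃ u v, u * P + v * (1 + (j + 1) * D) = 1) := by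
    refine Z_ind hS ?_ ?_ ?_
    · simp only [imp_iff_not_or, all_iff, ne_eq]
      fun_prop
    · intro _
      refine ⟨0, 1, fun i h1 h2 => absurd h2 (not_lt.2 h1), fun j _ _ => ⟨1, 0, by ring⟩⟩
    · intro k hk ih hkn
      obtain ⟨a, P, h1, h2⟩ := ih (by linarith)
      have hkn' : k < n := by linarith
      obtain ⟨u, v, huv⟩ := h2 k le_rfl hkn'
      refine ⟨a + P * (u * (f k - a)), P * (1 + (k + 1) * D), ?_, ?_⟩
      · intro i hi hik
        rcases lt_or_ge i k with h3 | h3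
        · obtain ⟨⟨q, hq⟩, ⟨q', hq'⟩⟩ := h1 i hi h3
          refine ⟨⟨q * (1 + (k + 1) * D), by rw [hq]; ring⟩,
            ⟨q' + q * (u * (f k - a)), ?_⟩⟩
          linear_combination hq' + (u * (f k - a)) * hq
        · have h4 : i = k := by
            apply le_antisymm _ h3
            by_contra h5
            have h6 := Z_disc hS (not_le.1 h5)
            linarith
          subst h4
          refine ⟨⟨P, by ring⟩, ⟨- (v * (f i - a)), ?_⟩⟩
          linear_combination (f i - a) * huv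
      · intro j hj hjn
        obtain ⟨u', v', huv'⟩ := h2 j (by linarith) hjn
        have h5 : 1 ≤ j - k := by linarith
        have h6 : j - k ≤ n := by linarith
        obtain ⟨e, he⟩ := hDd (j - k) h5 h6
        -- coprimality of the moduli
        have hc : IsCoprime (1 + (k + 1) * D) (1 + (j + 1) * D) := by
          refine ⟨1 - (k + 1) * e * (j + 1), (k + 1) * e * (k + 1), ?_⟩
          linear_combination (k + 1) * he
        have hP : IsCoprime P (1 + (j + 1) * D) := ⟨u', v', huv'⟩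
        obtain ⟨x, y, hxy⟩ := IsCoprime.mul_left hP hc
        exact ⟨x, y, hxy⟩
  obtain ⟨a, P, h1, -⟩ := key n hn le_rfl
  refine ⟨(a, D), fun i hi hin => ?_⟩
  obtain ⟨-, q, hq⟩ := h1 i hi hin
  refine bt_eq_of hS (hpos i hi) ?_ hq
  have h7 := hB i hi hin.le
  have h8 : 0 ≤ i * D := mul_nonneg hi (by linarith)
  show f i < 1 + (i + 1) * D
  nlinarith

end Pool.Agent.HTA
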