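import Mathlib
import Pool.Agent.HTA.Arith

/-!
Coding by nonnegative integers.
-/

namespace Pool.Agent.HTA

universe u

variable {M : Type u} [CommSemiring M] [LinearOrder M] [IsStrictOrderedRing M]
  [CanonicallyOrderedAdd M] {S : Set (Set M)} {A B : Type*} [Env M A] [Env M B]

/-- the elements of `A` are definably coded by the nonnegative integers of `M` -/
def Coded (S : Set (Set M)) (A : Type*) [Env M A] : Prop :=
  ∃ dec : ZM M → A, DF S dec ∧ ∀ a, ∃ n, 0 ≤ n ∧ dec n = a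

/-- graph of the coding of integers -/
def pairG (n k : ZM M) : Prop :=
  (0 ≤ k ∧ n = k + k) ∨ (k < 0 ∧ n = - (k + k) - 1) ∨ (n < 0 ∧ k = 0)

set_option linter.unusedSectionVars false

theorem pairG_ex (hS : IsModelACA0 S) (n : ZM M) : ∃ k, pairG n k := by
  rcases lt_or_ge n 0 with hn | hn
  · exact ⟨0, Or.inr (Or.inr ⟨hn, rfl⟩)⟩
  · obtain ⟨k, hk | hk⟩ := parity hS n
    · exact ⟨k, Or.inl ⟨by linarith, by linarith⟩⟩
    · refine ⟨-k - 1, Or.inr (Or.inl ⟨?_, by linarith⟩)⟩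
      have h1 : 0 ≤ k := by
        by_contra hk0
        have h2 : k < 0 := not_le.mp hk0
        have h3 := Z_disc hS h2
        linarith
      linarith

theorem pairG_unique (hS : IsModelACA0 S) {n k l : ZM M} (hk : pairG n k) (hl : pairG n l) :
    k = l := by
  rcases hk with ⟨h1, h2⟩ | ⟨h1, h2⟩ | ⟨h1, h2⟩ <;> rcases hl with ⟨h3, h4⟩ | ⟨h3, h4⟩ | ⟨h3, h4⟩
  · linarith
  · exfalso
    -- 2k = -2l - 1
    have h5 : (k + l) + (k + l) = -1 := by linarith
    rcases lt_trichotomy (k + l) 0 with h | h | h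
    · have := Z_disc hS h
      linarith
    · rw [h] at h5
      linarith
    · linarith
  · linarith
  · exfalso
    have h5 : (k + l) + (k + l) = -1 := by linarith
    rcases lt_trichotomy (k + l) 0 with h | h | h
    · have := Z_disc hS h
      linarith
    · rw [h] at h5
      linarith
    · linarith
  · linarith
  · exfalso
    have h5 := Z_disc hS h1
    linarith
  · linarith
  · exfalso
    have h5 := Z_disc hS h3
    linarith
  · rw [h2, h4]

theorem coded_Z (hS : IsModelACA0 S) : Coded S (ZM M) := by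
  classical
  refine ⟨fun n => Classical.choose (pairG_ex hS n), ?_, ?_⟩
  · refine DF_graph (P := pairG) ?_ ?_
    · intro a b
      constructor
      · intro h
        rw [← h]
        exact Classical.choose_spec (pairG_ex hS a)
      · intro h
        exact pairG_unique hS (Classical.choose_spec (pairG_ex hS a)) h
    · unfold pairG
      fun_prop
  · intro a
    rcases lt_or_ge a 0 with ha | ha
    · refine ⟨- (a + a) - 1, ?_, ?_⟩
      · have := Z_disc hS ha
        linarith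
      · have h : pairG (- (a + a) - 1) a := Or.inr (Or.inl ⟨ha, rfl⟩)
        exact pairG_unique hS (Classical.choose_spec (pairG_ex hS _)) h
    · refine ⟨a + a, by linarith, ?_⟩
      have h : pairG (a + a) a := Or.inl ⟨ha, rfl⟩
      exact pairG_unique hS (Classical.choose_spec (pairG_ex hS _)) h

/-- graph of the decoding of pairs -/
def pairQ (n : ZM M) (y : ZM M × ZM M) : Prop :=
  (0 ≤ y.1 ∧ 0 ≤ y.2 ∧ n = (y.1 + y.2) * (y.1 + y.2) + y.1) ∨
    ((¬ ∃ z : ZM M × ZM M, 0 ≤ z.1 ∧ 0 ≤ z.2 ∧ n = (z.1 + z.2) * (z.1 + z.2) + z.1) ∧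
      y.1 = 0 ∧ y.2 = 0)

theorem pairQ_aux (hS : IsModelACA0 S) {a b c d : ZM M} (ha : 0 ≤ a) (hb : 0 ≤ b)
    (hc : 0 ≤ c) (h : (a + b) * (a + b) + a = (c + d) * (c + d) + c) :
    c + d ≤ a + b := by
  by_contra hlt
  have h1 : a + b < c + d := not_le.mp hlt
  have h2 := Z_disc hS h1
  have h3 : (a + b + 1) * (a + b + 1) ≤ (c + d) * (c + d) :=
    mul_le_mul h2 h2 (by linarith) (by linarith)
  nlinarith

theorem pairQ_inj (hS : IsModelACA0 S) {a b c d : ZM M} (ha : 0 ≤ a) (hb : 0 ≤ b)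
    (hc : 0 ≤ c) (hd : 0 ≤ d) (h : (a + b) * (a + b) + a = (c + d) * (c + d) + c) :
    a = c ∧ b = d := by
  have h1 := pairQ_aux hS ha hb hc h
  have h2 := pairQ_aux hS hc hd ha h.symm
  have h3 : a + b = c + d := le_antisymm h2 h1
  have h4 : a = c := by
    rw [h3] at h
    linarith
  exact ⟨h4, by linarith⟩

theorem pairQ_ex (n : ZM M) : ∃ y, pairQ n y := by
  by_cases h : ∃ z : ZM M × ZM M, 0 ≤ z.1 ∧ 0 ≤ z.2 ∧ n = (z.1 + z.2) * (z.1 + z.2) + z.1
  · obtain ⟨z, hz⟩ := h
    exact ⟨z, Or.inl hz⟩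
  · exact ⟨(0, 0), Or.inr ⟨h, rfl, rfl⟩⟩

theorem pairQ_unique (hS : IsModelACA0 S) {n : ZM M} {y z : ZM M × ZM M} (hy : pairQ n y)
    (hz : pairQ n z) : y = z := by
  rcases hy with ⟨h1, h2, h3⟩ | ⟨h1, h2, h3⟩ <;> rcases hz with ⟨h4, h5, h6⟩ | ⟨h4, h5, h6⟩
  · have := pairQ_inj hS h1 h2 h4 h5 (h3.symm.trans h6)
    exact Prod.ext this.1 this.2
  · exact absurd ⟨y, h1, h2, h3⟩ h4
  · exact absurd ⟨z, h4, h5, h6⟩ h1
  · exact Prod.ext (h2.trans h5.symm) (h3.trans h6.symm)

theorem coded_prod (hS : IsModelACA0 S) (hA : Coded S A) (hB : Coded S B) :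
    Coded S (A × B) := by
  classical
  obtain ⟨dA, hdA, sA⟩ := hA
  obtain ⟨dB, hdB, sB⟩ := hB
  have hun : DF S (fun n : ZM M => Classical.choose (pairQ_ex n)) := by
    refine DF_graph (P := pairQ) ?_ ?_
    · intro a b
      constructor
      · intro h
        rw [← h]
        exact Classical.choose_spec (pairQ_ex a)
      · intro h
        exact pairQ_unique hS (Classical.choose_spec (pairQ_ex a)) h
    · unfold pairQ
      fun_prop
  refine ⟨fun n => (dA (Classical.choose (pairQ_ex n)).1, dB (Classical.choose (pairQ_ex n)).2),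
    ?_, ?_⟩
  · exact DF_pair (DF_comp hdA (DF_fst hun)) (DF_comp hdB (DF_snd hun))
  · rintro ⟨a, b⟩
    obtain ⟨k, hk, hk'⟩ := sA a
    obtain ⟨l, hl, hl'⟩ := sB b
    refine ⟨(k + l) * (k + l) + k, ?_, ?_⟩
    · nlinarith [mul_self_nonneg (k + l)]
    · have h : pairQ ((k + l) * (k + l) + k) (k, l) := Or.inl ⟨hk, hl, rfl⟩
      have h2 := pairQ_unique hS (Classical.choose_spec (pairQ_ex ((k + l) * (k + l) + k))) h
      simp only [h2, hk', hl']

end Pool.Agent.HTA
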