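import Mathlib
import Pool.Agent.HTA.Beta
import Pool.Agent.HTA.Pair

/-!
Definable recursion (dependent choice).
-/

namespace Pool.Agent.HTA

universe u

variable {M : Type u} [CommSemiring M] [LinearOrder M] [IsStrictOrderedRing M]
  [CanonicallyOrderedAdd M] {S : Set (Set M)} {A : Type*} [Env M A]

/-- `b` is the least nonnegative element with `Q g n b` -/
def recQm (Q : (ZM M → ZM M) → ZM M → ZM M → Prop) (g : ZM M → ZM M) (n b : ZM M) : Prop :=
  0 ≤ b ∧ Q g n b ∧ ∀ k, 0 ≤ k → k < b → ¬ Q g n k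

/-- the sequence coded by `s` satisfies the recursion below `n` -/
def recApp (Q : (ZM M → ZM M) → ZM M → ZM M → Prop) (s : ZM M × ZM M) (n : ZM M) : Prop :=
  ∀ j, 0 ≤ j → j < n → recQm Q (bt s) j (bt s j)

theorem recQm_congr {Q : (ZM M → ZM M) → ZM M → ZM M → Prop}
    (hloc : ∀ g g' n b, (∀ j, 0 ≤ j → j < n → g j = g' j) → Q g n b → Q g' n b)
    {g g' : ZM M → ZM M} {n b : ZM M} (h : ∀ j, 0 ≤ j → j < n → g j = g' j)
    (hq : recQm Q g n b) : recQm Q g' n b :=
  ⟨hq.1, hloc _ _ _ _ h hq.2.1, fun k hk0 hk hk' =>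
    hq.2.2 k hk0 hk (hloc _ _ _ _ (fun j h1 h2 => (h j h1 h2).symm) hk')⟩

theorem recQm_unique {Q : (ZM M → ZM M) → ZM M → ZM M → Prop} {g : ZM M → ZM M} {n b b' : ZM M}
    (h : recQm Q g n b) (h' : recQm Q g n b') : b = b' := by
  rcases lt_trichotomy b b' with hlt | heq | hlt
  · exact absurd h.2.1 (h'.2.2 b h.1 hlt)
  · exact heq
  · exact absurd h'.2.1 (h.2.2 b' h'.1 hlt)

theorem DF_recQm {Q : (ZM M → ZM M) → ZM M → ZM M → Prop}
    (hQ : DF S (fun x : (ZM M × ZM M) × ZM M × ZM M => Q (bt x.1) x.2.1 x.2.2)) :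
    DF S (fun x : (ZM M × ZM M) × ZM M × ZM M => recQm Q (bt x.1) x.2.1 x.2.2) := by
  unfold recQm
  simp only [imp_iff_not_or, all_iff]
  have h1 : ∀ {B : Type u} [Env M B] {f : B → ZM M × ZM M} {g h : B → ZM M}, DF S f → DF S g →
      DF S h → DF S (fun x => Q (bt (f x)) (g x) (h x)) := by
    intro B _ f g h hf hg hh
    exact DF_comp (f := fun x : (ZM M × ZM M) × ZM M × ZM M => Q (bt x.1) x.2.1 x.2.2) hQ
      (DF_pair hf (DF_pair hg hh))
  refine DF_and (by fun_prop) (DF_and hQ (DF_not (DF_ex (DF_not (DF_or (by fun_prop)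
    (DF_or (by fun_prop) (DF_not (h1 (by fun_prop) (by fun_prop) (by fun_prop)))))))))

theorem DF_recApp (hS : IsModelACA0 S) {Q : (ZM M → ZM M) → ZM M → ZM M → Prop}
    (hQ : DF S (fun x : (ZM M × ZM M) × ZM M × ZM M => Q (bt x.1) x.2.1 x.2.2)) :
    DF S (fun x : (ZM M × ZM M) × ZM M => recApp Q x.1 x.2) := by
  unfold recApp
  simp only [imp_iff_not_or, all_iff]
  refine DF_not (DF_ex (DF_not (DF_or (by fun_prop) (DF_or (by fun_prop) ?_))))
  exact DF_comp (f := fun x : (ZM M × ZM M) × ZM M × ZM M => recQm Q (bt x.1) x.2.1 x.2.2)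
    (DF_recQm hQ) (DF_pair (by fun_prop) (DF_pair (by fun_prop)
      (DF_bt hS (by fun_prop) (by fun_prop))))

theorem recApp_exists (hS : IsModelACA0 S) {Q : (ZM M → ZM M) → ZM M → ZM M → Prop}
    (hQ : DF S (fun x : (ZM M × ZM M) × ZM M × ZM M => Q (bt x.1) x.2.1 x.2.2))
    (hloc : ∀ g g' n b, (∀ j, 0 ≤ j → j < n → g j = g' j) → Q g n b → Q g' n b)
    (htot : ∀ s : ZM M × ZM M, ∀ n, 0 ≤ n → ∃ b, 0 ≤ b ∧ Q (bt s) n b) (n : ZM M) (hn : 0 ≤ n) :
    ∃ s, recApp Q s n := by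
  have hApp := DF_recApp hS hQ
  refine Z_ind hS (p := fun n => ∃ s, recApp Q s n) ?_ ?_ ?_ n hn
  · refine DF_ex ?_
    exact DF_comp (f := fun x : (ZM M × ZM M) × ZM M => recApp Q x.1 x.2) hApp
      (DF_pair (by fun_prop) (by fun_prop))
  · exact ⟨(0, 0), fun j h1 h2 => absurd h1 (not_le.2 h2)⟩
  · rintro n hn ⟨s, hs⟩
    obtain ⟨b0, hb0, hb1⟩ := htot s n hn
    have hDQ : DF S (fun b : ZM M => Q (bt s) n b) :=
      DF_comp (f := fun x : (ZM M × ZM M) × ZM M × ZM M => Q (bt x.1) x.2.1 x.2.2) hQ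
        (g := fun b : ZM M => (s, n, b)) (DF_pair (by fun_prop) (by fun_prop))
    obtain ⟨b, hb2, hb3, hb4⟩ := least hS hDQ hb0 hb1
    have hDf : DF S (fun i : ZM M => if i < n then bt s i else b) :=
      DF_ite (by fun_prop) (DF_bt hS (by fun_prop) (by fun_prop)) (by fun_prop)
    obtain ⟨s', hs'⟩ := bt_code hS hDf (fun i hi => by
      show 0 ≤ (if i < n then bt s i else b)
      split_ifs
      · exact bt_nonneg s i
      · exact hb2) (n + 1) (by linarith)
    have h1 : ∀ j, 0 ≤ j → j < n → bt s j = bt s' j := by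
      intro j hj0 hj
      rw [hs' j hj0 (by linarith)]
      exact (if_pos hj).symm
    refine ⟨s', fun j hj0 hj => ?_⟩
    rcases lt_or_ge j n with hjn | hjn
    · rw [← h1 j hj0 hjn]
      exact recQm_congr hloc (fun i hi0 hi => h1 i hi0 (hi.trans hjn)) (hs j hj0 hjn)
    · have hjn' : j = n := by
        by_contra hne
        have h2 : n < j := lt_of_le_of_ne hjn (Ne.symm hne)
        have h3 := Z_disc hS h2
        linarith
      subst hjn'
      rw [hs' j hj0 hj]
      have h4 : (if j < j then bt s j else b) = b := if_neg (lt_irrefl j)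
      show recQm Q (bt s') j (if j < j then bt s j else b)
      rw [h4]
      exact recQm_congr hloc h1 ⟨hb2, hb3, hb4⟩

theorem recApp_unique (hS : IsModelACA0 S) {Q : (ZM M → ZM M) → ZM M → ZM M → Prop}
    (hloc : ∀ g g' n b, (∀ j, 0 ≤ j → j < n → g j = g' j) → Q g n b → Q g' n b)
    {s s' : ZM M × ZM M} {n n' : ZM M} (hs : recApp Q s n) (hs' : recApp Q s' n') (j : ZM M)
    (hj0 : 0 ≤ j) (hj : j < n) (hj' : j < n') : bt s j = bt s' j := by
  have key : ∀ m, 0 ≤ m → ∀ i, 0 ≤ i → i < m → i < n → i < n' → bt s i = bt s' i := by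
    refine Z_ind hS (p := fun m => ∀ i, 0 ≤ i → i < m → i < n → i < n' → bt s i = bt s' i)
      ?_ ?_ ?_
    · simp only [imp_iff_not_or, all_iff]
      refine DF_not (DF_ex (DF_not (DF_or (by fun_prop) (DF_or (by fun_prop)
        (DF_or (by fun_prop) (DF_or (by fun_prop) (DF_eq (DF_bt hS (by fun_prop) (by fun_prop))
          (DF_bt hS (by fun_prop) (by fun_prop)))))))))
    · intro i hi0 hi
      exact absurd hi0 (not_le.2 hi)
    · intro m hm ih i hi0 hi hin hin'
      rcases lt_or_ge i m with him | him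
      · exact ih i hi0 him hin hin'
      · have him' : i = m := by
          by_contra hne
          have h2 : m < i := lt_of_le_of_ne him (Ne.symm hne)
          have h3 := Z_disc hS h2
          linarith
        subst him'
        have h4 := hs i hi0 hin
        have h5 := hs' i hi0 hin'
        exact recQm_unique (recQm_congr hloc
          (fun k hk0 hk => ih k hk0 hk (hk.trans hin) (hk.trans hin')) h4) h5
  exact key (j + 1) (by linarith) j hj0 (by linarith) hj hj'

/-- course-of-values recursion: `Q g n b` only depends on the values of `g` below `n` -/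
theorem dc_cov (hS : IsModelACA0 S) (Q : (ZM M → ZM M) → ZM M → ZM M → Prop)
    (hQ : DF S (fun x : (ZM M × ZM M) × ZM M × ZM M => Q (bt x.1) x.2.1 x.2.2))
    (hloc : ∀ g g' n b, (∀ j, 0 ≤ j → j < n → g j = g' j) → Q g n b → Q g' n b)
    (htot : ∀ s : ZM M × ZM M, ∀ n, 0 ≤ n → ∃ b, 0 ≤ b ∧ Q (bt s) n b) :
    ∃ f : ZM M → ZM M, DF S f ∧ (∀ n, 0 ≤ n → 0 ≤ f n) ∧ ∀ n, 0 ≤ n → Q f n (f n) := by
  classical
  have hex : ∀ n : ZM M, 0 ≤ n → ∃ s, recApp Q s (n + 1) := fun n hn =>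
    recApp_exists hS hQ hloc htot (n + 1) (by linarith)
  choose! σ hσ using hex
  have hfs : ∀ n s, 0 ≤ n → recApp Q s (n + 1) → bt s n = bt (σ n) n := fun n s hn hs =>
    recApp_unique hS hloc hs (hσ n hn) n hn (by linarith) (by linarith)
  refine ⟨fun n => if 0 ≤ n then bt (σ n) n else 0, ?_, ?_, ?_⟩
  · refine DF_graph (P := fun n b => (0 ≤ n ∧ ∃ s, recApp Q s (n + 1) ∧ bt s n = b) ∨
      (¬ 0 ≤ n ∧ 0 = b)) ?_ ?_
    · intro n b
      by_cases hn : 0 ≤ n
      · rw [if_pos hn]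
        constructor
        · intro h
          exact Or.inl ⟨hn, σ n, hσ n hn, h⟩
        · rintro (⟨_, s, hs, h⟩ | ⟨h, _⟩)
          · rw [← hfs n s hn hs, h]
          · exact absurd hn h
      · rw [if_neg hn]
        constructor
        · intro h
          exact Or.inr ⟨hn, h⟩
        · rintro (⟨h, _⟩ | ⟨_, h⟩)
          · exact absurd h hn
          · exact h
    · refine DF_or (DF_and (by fun_prop) (DF_ex (DF_and ?_ (DF_eq (DF_bt hS (by fun_prop)
        (by fun_prop)) (by fun_prop))))) (by fun_prop)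
      exact DF_comp (f := fun x : (ZM M × ZM M) × ZM M => recApp Q x.1 x.2) (DF_recApp hS hQ)
        (DF_pair (by fun_prop) (by fun_prop))
  · intro n hn
    show 0 ≤ (if 0 ≤ n then bt (σ n) n else 0)
    rw [if_pos hn]
    exact bt_nonneg _ _
  · intro n hn
    have h1 : ∀ j, 0 ≤ j → j < n → bt (σ n) j = (if 0 ≤ j then bt (σ j) j else 0) := by
      intro j hj0 hj
      rw [if_pos hj0]
      exact recApp_unique hS hloc (hσ n hn) (hσ j hj0) j hj0 (by linarith) (by linarith)
    have h2 := hloc _ (fun j => if 0 ≤ j then bt (σ j) j else 0) _ _ h1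
      (hσ n hn n hn (by linarith)).2.1
    show Q _ n (if 0 ≤ n then bt (σ n) n else 0)
    rw [if_pos hn]
    exact h2

/-- dependent choice with states in a coded type; `R n a b`: at stage `n` the state `a` may be
followed by the state `b` -/
theorem dc_state (hS : IsModelACA0 S) (hA : Coded S A) (R : ZM M → A → A → Prop)
    (hR : DF S (fun x : ZM M × A × A => R x.1 x.2.1 x.2.2)) (a0 : A)
    (htot : ∀ n, 0 ≤ n → ∀ a, ∃ b, R n a b) :
    ∃ f : ZM M → A, DF S f ∧ f 0 = a0 ∧ ∀ n, 0 ≤ n → R n (f n) (f (n + 1)) := by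
  obtain ⟨dec, hdec, hsurj⟩ := hA
  obtain ⟨F, hF, _, hFQ⟩ := dc_cov hS
    (fun g n b => (¬ n = 0 ∨ dec b = a0) ∧ (¬ 0 < n ∨ R (n - 1) (dec (g (n - 1))) (dec b)))
    (by
      refine DF_and (by fun_prop) (DF_or (by fun_prop) ?_)
      have hb : DF S (fun x : (ZM M × ZM M) × ZM M × ZM M => bt x.1 (x.2.1 - 1)) :=
        DF_bt hS (by fun_prop) (by fun_prop)
      exact DF_comp (f := fun x : ZM M × A × A => R x.1 x.2.1 x.2.2) hR
        (g := fun x : (ZM M × ZM M) × ZM M × ZM M => (x.2.1 - 1, dec (bt x.1 (x.2.1 - 1)),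
          dec x.2.2)) (DF_pair (by fun_prop) (DF_pair (DF_comp hdec hb) (by fun_prop))))
    (by
      rintro g g' n b hg ⟨h1, h2⟩
      refine ⟨h1, ?_⟩
      rcases h2 with h2 | h2
      · exact Or.inl h2
      · by_cases hn : 0 < n
        · have h3 := Z_disc hS hn
          rw [hg (n - 1) (by linarith) (by linarith)] at h2
          exact Or.inr h2
        · exact Or.inl hn)
    (by
      intro s n hn
      by_cases hn0 : n = 0
      · obtain ⟨b, hb, hb'⟩ := hsurj a0
        exact ⟨b, hb, Or.inr hb', Or.inl (by rw [hn0]; exact lt_irrefl 0)⟩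
      · have hn1 : 0 < n := lt_of_le_of_ne hn (Ne.symm hn0)
        have h3 := Z_disc hS hn1
        obtain ⟨c, hc⟩ := htot (n - 1) (by linarith) (dec (bt s (n - 1)))
        obtain ⟨b, hb, hb'⟩ := hsurj c
        exact ⟨b, hb, Or.inl hn0, Or.inr (by rw [hb']; exact hc)⟩)
  refine ⟨fun n => dec (F n), DF_comp hdec hF, ?_, ?_⟩
  · exact (hFQ 0 le_rfl).1.resolve_left (not_not.2 rfl)
  · intro n hn
    have h1 := (hFQ (n + 1) (by linarith)).2.resolve_left (not_not.2 (by linarith))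
    rw [add_sub_cancel_right] at h1
    exact h1

end Pool.Agent.HTA
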