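import Mathlib
import Pool.Agent.HTA.Rec

/-!
Symbolic dynamics in a model of `ACA_0`: definitions.
-/

namespace Pool.Agent.HTA

universe u

variable {M : Type u} [CommSemiring M] [LinearOrder M] [IsStrictOrderedRing M]
  [CanonicallyOrderedAdd M] {S : Set (Set M)} {A : Type*} [Env M A]

/-- `x` at `p` and `y` at `q` agree on the window of radius `m` -/
def Ag (x y : ZM M → Bool) (p q m : ZM M) : Prop := ∀ a, |a| ≤ m → x (p + a) = y (q + a)

@[fun_prop] theorem DF_Ag {x y : ZM M → Bool} (hx : DF S x) (hy : DF S y) {f g h : A → ZM M}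
    (hf : DF S f) (hg : DF S g) (hh : DF S h) : DF S (fun t => Ag x y (f t) (g t) (h t)) := by
  unfold Ag
  simp only [imp_iff_not_or, all_iff]
  fun_prop

theorem Ag.symm {x y : ZM M → Bool} {p q m : ZM M} (h : Ag x y p q m) : Ag y x q p m :=
  fun a ha => (h a ha).symm

theorem Ag.trans {x y z : ZM M → Bool} {p q r m : ZM M} (h : Ag x y p q m) (h' : Ag y z q r m) :
    Ag x z p r m := fun a ha => (h a ha).trans (h' a ha)

theorem Ag.mono {x y : ZM M → Bool} {p q m m' : ZM M} (h : Ag x y p q m) (hm : m' ≤ m) :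
    Ag x y p q m' := fun a ha => h a (ha.trans hm)

theorem Ag.shift {x y : ZM M → Bool} {p q m m' : ZM M} (h : Ag x y p q m) (b : ZM M)
    (hm : |b| + m' ≤ m) : Ag x y (p + b) (q + b) m' := by
  intro a ha
  have := h (b + a) ((abs_add_le b a).trans ((add_le_add_right ha _).trans hm))
  rw [add_assoc, add_assoc]
  exact this

theorem Ag.val {x y : ZM M → Bool} {p q m : ZM M} (h : Ag x y p q m) (b : ZM M) (hb : |b| ≤ m) :
    x (p + b) = y (q + b) := h b hb

theorem Ag.val0 {x y : ZM M → Bool} {p q m : ZM M} (h : Ag x y p q m) (hm : 0 ≤ m) :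
    x p = y q := by
  have := h 0 (by simpa using hm)
  simpa using this

/-- the colouring `c` has no solution in the model -/
def NoSol (S : Set (Set M)) (c : ZM M → Bool) : Prop :=
  ¬ ∃ X : ZM M → Prop, DF S X ∧ (∀ b, ∃ x, X x ∧ b < x) ∧ (∀ x, X x → 0 < x) ∧
    ∃ i, (∀ x, X x → c x = i) ∧ ∀ x y, X x → X y → x ≠ y → c (x + y) = i

/-- `x` is a limit point of `c` -/
def LP (c x : ZM M → Bool) : Prop := ∀ m b, ∃ n, b ≤ n ∧ Ag c x n 0 m

/-- uniform recurrence -/
def UR (z : ZM M → Bool) : Prop := ∀ p m, ∃ g, ∀ q, ∃ r, q ≤ r ∧ r ≤ q + g ∧ Ag z z r p m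

/-- every window of `x` is a window of `z` -/
def MM (z x : ZM M → Bool) : Prop := ∀ p m, ∃ q, Ag x z p q m

/-- the window of `x` at `j` of radius `l` is good -/
def Good (c z x : ZM M → Bool) (j l : ZM M) : Prop :=
  ∃ N, ∀ j' n, N ≤ n → Ag z x j' j l → Ag c x n j l → z (j' + n) ≠ x j

@[fun_prop] theorem DF_Good {c z x : ZM M → Bool} (hc : DF S c) (hz : DF S z) (hx : DF S x)
    {f g : A → ZM M} (hf : DF S f) (hg : DF S g) :
    DF S (fun t => Good c z x (f t) (g t)) := by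
  unfold Good
  simp only [imp_iff_not_or, all_iff, ne_eq]
  fun_prop

theorem Good.mono {c z x : ZM M → Bool} {j l l' : ZM M} (h : Good c z x j l) (hl : l ≤ l') :
    Good c z x j l' := by
  obtain ⟨N, hN⟩ := h
  exact ⟨N, fun j' n hn h1 h2 => hN j' n hn (h1.mono hl) (h2.mono hl)⟩

theorem Good.congr {c z x x' : ZM M → Bool} {j j' l : ZM M} (h : Good c z x j l)
    (ha : Ag x x' j j' l) (hl : 0 ≤ l) : Good c z x' j' l := by
  obtain ⟨N, hN⟩ := h
  refine ⟨N, fun i n hn h1 h2 => ?_⟩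
  rw [← ha.val0 hl]
  exact hN i n hn (h1.trans ha.symm) (h2.trans ha.symm)

/-- the configuration of limit points constructed in the proof -/
structure Cfg (S : Set (Set M)) (c z t y w : ZM M → Bool) (v : ZM M → ZM M) : Prop where
  hS : IsModelACA0 S
  hc : DF S c
  hz : DF S z
  ht : DF S t
  hy : DF S y
  hw : DF S w
  hv : DF S v
  hN : NoSol S c
  hU : UR z
  hL : LP c z
  hk : ∀ k, 0 ≤ k → k ≤ v k
  h1 : ∀ k, 0 ≤ k → ∀ a, |a| ≤ k → c (v k + a) = z a
  h2 : ∀ k, 0 ≤ k → ∀ a, |a| ≤ k → z (v k + a) = t a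
  h3 : ∀ k, 0 ≤ k → ∀ a, |a| ≤ k → z (a - v k) = y a
  h4 : ∀ k, 0 ≤ k → ∀ a, |a| ≤ k → t (a - 2 * v k) = w a

end Pool.Agent.HTA
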