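import Mathlib
import Pool.Agent.HTA.Dyn

/-!
Diagonal subsequences.
-/

namespace Pool.Agent.HTA

universe u

variable {M : Type u} [CommSemiring M] [LinearOrder M] [IsStrictOrderedRing M]
  [CanonicallyOrderedAdd M] {S : Set (Set M)}

/-- arbitrarily far out there are rows agreeing with the row `v` up to `i` -/
def CohP (g : ZM M → ZM M → Bool) (v i : ZM M) : Prop :=
  ∀ b, ∃ v', b ≤ v' ∧ ∀ a, |a| ≤ i → g v' a = g v a

theorem coh_abs_cases (hS : IsModelACA0 S) {i a : ZM M} (h : |a| ≤ i + 1) :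
    |a| ≤ i ∨ a = i + 1 ∨ a = -(i + 1) := by
  rcases le_or_gt (|a|) i with h1 | h1
  · exact Or.inl h1
  · have h2 := Z_disc hS h1
    have h3 : |a| = i + 1 := le_antisymm h h2
    right
    rcases abs_choice a with h4 | h4
    · left; rw [← h3, h4]
    · right; rw [← h3, h4]; ring

theorem coh_step (hS : IsModelACA0 S) (g : ZM M → ZM M → Bool) {v i : ZM M}
    (hv : CohP g v i) :
    ∃ v', i + 1 ≤ v' ∧ (∀ a, |a| ≤ i → g v' a = g v a) ∧ CohP g v' (i + 1) := by
  by_contra hcon
  push Not at hcon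
  have key : ∀ x y : Bool, ∃ b, ∀ v', b ≤ v' → (∀ a, |a| ≤ i → g v' a = g v a) →
      g v' (i + 1) = x → g v' (-(i + 1)) = y → False := by
    intro x y
    by_contra hno
    push Not at hno
    obtain ⟨v0, h0, h1, h2, h3, -⟩ := hno (i + 1)
    refine hcon v0 h0 h1 ?_
    intro b
    obtain ⟨v', k0, k1, k2, k3, -⟩ := hno b
    refine ⟨v', k0, ?_⟩
    intro a ha
    rcases coh_abs_cases hS ha with h | h | h
    · rw [k1 a h, h1 a h]
    · rw [h, k2, h2]
    · rw [h, k3, h3]
  choose b hb using key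
  obtain ⟨v', h0, h1⟩ := hv (max (max (b true true) (b true false))
    (max (b false true) (b false false)))
  refine hb (g v' (i + 1)) (g v' (-(i + 1))) v' ?_ h1 rfl rfl
  have e1 : b true true ≤ v' := le_trans (le_trans (le_max_left _ _) (le_max_left _ _)) h0
  have e2 : b true false ≤ v' := le_trans (le_trans (le_max_right _ _) (le_max_left _ _)) h0
  have e3 : b false true ≤ v' := le_trans (le_trans (le_max_left _ _) (le_max_right _ _)) h0
  have e4 : b false false ≤ v' := le_trans (le_trans (le_max_right _ _) (le_max_right _ _)) h0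
  cases g v' (i + 1) <;> cases g v' (-(i + 1)) <;> assumption

theorem coh_start (g : ZM M → ZM M → Bool) : ∃ v, 0 ≤ v ∧ CohP g v 0 := by
  by_contra hcon
  push Not at hcon
  have key : ∀ x : Bool, ∃ b, ∀ v', b ≤ v' → g v' 0 = x → False := by
    intro x
    by_contra hno
    push Not at hno
    obtain ⟨v0, h0, h1, -⟩ := hno 0
    refine hcon v0 h0 ?_
    intro b
    obtain ⟨v', k0, k1, -⟩ := hno b
    refine ⟨v', k0, ?_⟩
    intro a ha
    have : a = 0 := by
      have := le_antisymm ha (abs_nonneg a)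
      exact abs_eq_zero.mp this
    rw [this, k1, h1]
  choose b hb using key
  refine hb (g (max (b true) (b false)) 0) (max (b true) (b false)) ?_ rfl
  cases g (max (b true) (b false)) 0
  · exact le_max_right _ _
  · exact le_max_left _ _

/-- a definable sequence of two-sided sequences has a definable convergent subsequence -/
theorem coh (hS : IsModelACA0 S) (g : ZM M → ZM M → Bool)
    (hg : DF S (fun y : ZM M × ZM M => g y.1 y.2)) :
    ∃ (φ : ZM M → ZM M) (h : ZM M → Bool), DF S φ ∧ DF S h ∧ (∀ k, 0 ≤ k → k ≤ φ k) ∧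
      ∀ k, 0 ≤ k → ∀ a, |a| ≤ k → g (φ k) a = h a := by
  obtain ⟨a0, ha0, hP0⟩ := coh_start g
  obtain ⟨f, hf, f0, hR⟩ := dc_state hS (coded_Z hS) (fun i v v' => CohP g v i →
      (i + 1 ≤ v' ∧ (∀ a, |a| ≤ i → g v' a = g v a) ∧ CohP g v' (i + 1)))
    (by
      unfold CohP
      simp only [imp_iff_not_or, all_iff]
      fun_prop) a0
    (by
      intro n hn a
      by_cases h : CohP g a n
      · obtain ⟨v', h1⟩ := coh_step hS g h
        exact ⟨v', fun _ => h1⟩
      · exact ⟨0, fun h' => absurd h' h⟩)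
  have inv : ∀ n, 0 ≤ n → CohP g (f n) n ∧ n ≤ f n := by
    refine Z_ind hS (p := fun n => CohP g (f n) n ∧ n ≤ f n) ?_ ?_ ?_
    · unfold CohP
      simp only [imp_iff_not_or, all_iff]
      fun_prop
    · rw [f0]; exact ⟨hP0, ha0⟩
    · intro n hn h
      have := hR n hn h.1
      exact ⟨this.2.2, this.1⟩
  have agr : ∀ k, 0 ≤ k → ∀ m, 0 ≤ m → ∀ a, |a| ≤ k → g (f (k + m)) a = g (f k) a := by
    intro k hk
    refine Z_ind hS (p := fun m => ∀ a, |a| ≤ k → g (f (k + m)) a = g (f k) a) ?_ ?_ ?_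
    · simp only [imp_iff_not_or, all_iff]
      fun_prop
    · intro a _
      rw [add_zero]
    · intro m hm h a ha
      have h1 := hR (k + m) (by linarith) (inv (k + m) (by linarith)).1
      rw [← add_assoc, h1.2.1 a (by linarith), h a ha]
  refine ⟨f, fun a => g (f |a|) a, hf, by fun_prop, fun k hk => (inv k hk).2, ?_⟩
  intro k hk a ha
  have := agr |a| (abs_nonneg a) (k - |a|) (by linarith) a le_rfl
  have e : |a| + (k - |a|) = k := by ring
  rw [e] at this
  exact this
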