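import Mathlib
import Pool.Agent.HTA.Dyn

/-!
The minimal system of a uniformly recurrent sequence.
-/

namespace Pool.Agent.HTA

universe u

variable {M : Type u} [CommSemiring M] [LinearOrder M] [IsStrictOrderedRing M]
  [CanonicallyOrderedAdd M] {S : Set (Set M)}

/-- every window of `z` occurs syndetically in `x` -/
theorem MM_synd {z x : ZM M → Bool} (hU : UR z) (hx : MM z x) :
    ∀ p m, ∃ g, ∀ q, ∃ r, q ≤ r ∧ r ≤ q + g ∧ Ag x z r p m := by
  intro p m
  obtain ⟨g, hg⟩ := hU p m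
  refine ⟨g, fun q => ?_⟩
  obtain ⟨q', hq'⟩ := hx q (g + m)
  obtain ⟨r', h1, h2, h3⟩ := hg q'
  refine ⟨q + (r' - q'), by linarith, by linarith, ?_⟩
  have h4 : |r' - q'| + m ≤ g + m := by
    rw [abs_of_nonneg (by linarith)]
    linarith
  have h5 := hq'.shift (r' - q') h4
  have h6 : q' + (r' - q') = r' := by ring
  rw [h6] at h5
  exact h5.trans h3

theorem MM_UR {z x : ZM M → Bool} (hU : UR z) (hx : MM z x) : UR x := by
  intro p m
  obtain ⟨q0, hq0⟩ := hx p m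
  obtain ⟨g, hg⟩ := MM_synd hU hx q0 m
  refine ⟨g, fun q => ?_⟩
  obtain ⟨r, h1, h2, h3⟩ := hg q
  exact ⟨r, h1, h2, h3.trans hq0.symm⟩

theorem MM_LP {c z x : ZM M → Bool} (hL : LP c z) (hx : MM z x) : LP c x := by
  intro m b
  obtain ⟨q0, hq0⟩ := hx 0 m
  obtain ⟨n, hn, hA⟩ := hL (|q0| + m) (b + |q0|)
  refine ⟨n + q0, ?_, ?_⟩
  · have := neg_abs_le q0
    linarith
  · have h5 := hA.shift q0 le_rfl
    rw [zero_add] at h5
    exact h5.trans hq0.symm

end Pool.Agent.HTA
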