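import Mathlib
import Pool.Agent.HTA.Dyn

/-!
A maximal set of forbidden words.
-/

namespace Pool.Agent.HTA

universe u

variable {M : Type u} [CommSemiring M] [LinearOrder M] [IsStrictOrderedRing M]
  [CanonicallyOrderedAdd M] {S : Set (Set M)}

/-- the window of `x` at `n` of radius `K` contains no occurrence of a word with index `j < i` and
`F j = true`; the word with index `j` is the window of `c` at `(dec j).1` of radius `(dec j).2` -/
def AvC (c : ZM M → Bool) (dec : ZM M → ZM M × ZM M) (F : ZM M → Bool) (i : ZM M)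
    (x : ZM M → Bool) (n K : ZM M) : Prop :=
  ∀ j, 0 ≤ j → j < i → F j = true → ∀ r, |r - n| + (dec j).2 ≤ K → ¬ Ag x c r (dec j).1 (dec j).2

/-- the forbidden words with index below `i` can be avoided in arbitrarily long windows of `c`
arbitrarily far out -/
def Ext (c : ZM M → Bool) (dec : ZM M → ZM M × ZM M) (F : ZM M → Bool) (i : ZM M) : Prop :=
  ∀ K b, ∃ n, b ≤ n ∧ AvC c dec F i c n K

@[fun_prop] theorem DF_AvC {A : Type*} [Env M A] {c x : ZM M → Bool} {F : ZM M → Bool}
    {dec : ZM M → ZM M × ZM M} (hc : DF S c) (hx : DF S x) (hF : DF S F) (hd : DF S dec)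
    {f g h : A → ZM M} (hf : DF S f) (hg : DF S g) (hh : DF S h) :
    DF S (fun t => AvC c dec F (f t) x (g t) (h t)) := by
  unfold AvC
  simp only [imp_iff_not_or, all_iff, ne_eq]
  fun_prop

/-- the forbidden set used at stage `n` of the recursion -/
noncomputable def ufG (g : ZM M → ZM M) (n j : ZM M) : Bool :=
  if j < n then decide (g j = 1) else true

theorem exists_F (hS : IsModelACA0 S) {c : ZM M → Bool} (hc : DF S c)
    {dec : ZM M → ZM M × ZM M} (hd : DF S dec) :
    ∃ F : ZM M → Bool, DF S F ∧ (∀ i, 0 ≤ i → Ext c dec F i) ∧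
      ∀ i, 0 ≤ i → F i = false → ¬ Ext c dec (fun j => if j < i then F j else true) (i + 1) := by
  obtain ⟨f, hf, _, hfQ⟩ := dc_cov hS
    (fun g n b => (b = 1 ∧ Ext c dec (ufG g n) (n + 1)) ∨
      (b = 0 ∧ ¬ Ext c dec (ufG g n) (n + 1)))
    (by
      unfold Ext AvC ufG
      simp only [imp_iff_not_or, all_iff, ne_eq]
      fun_prop)
    (by
      intro g g' n b h
      have h1 : ∀ j, 0 ≤ j → ufG g n j = ufG g' n j := by
        intro j hj
        unfold ufG
        by_cases hjn : j < n
        · rw [if_pos hjn, if_pos hjn, h j hj hjn]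
        · rw [if_neg hjn, if_neg hjn]
      have h2 : ∀ g1 g2 : ZM M → Bool, (∀ j, 0 ≤ j → g1 j = g2 j) →
          Ext c dec g1 (n + 1) → Ext c dec g2 (n + 1) := by
        intro g1 g2 h12 hE K b'
        obtain ⟨n', hn', hA⟩ := hE K b'
        exact ⟨n', hn', fun j hj hjn hFj => hA j hj hjn (by rw [h12 j hj]; exact hFj)⟩
      rintro (⟨hb, hE⟩ | ⟨hb, hE⟩)
      · exact Or.inl ⟨hb, h2 _ _ h1 hE⟩
      · exact Or.inr ⟨hb, fun hE' => hE (h2 _ _ (fun j hj => (h1 j hj).symm) hE')⟩)
    (by
      intro s n _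
      by_cases h : Ext c dec (ufG (bt s) n) (n + 1)
      · exact ⟨1, zero_le_one, Or.inl ⟨rfl, h⟩⟩
      · exact ⟨0, le_rfl, Or.inr ⟨rfl, h⟩⟩)
  refine ⟨fun j => decide (f j = 1), by fun_prop, ?_, ?_⟩
  · refine Z_ind hS ?_ ?_ ?_
    · unfold Ext
      simp only [all_iff]
      fun_prop
    · intro K b
      exact ⟨b, le_rfl, fun j h0 h1 => absurd h1 (not_lt.mpr h0)⟩
    · intro i hi ih
      rcases hfQ i hi with ⟨_, hE⟩ | ⟨hb, _⟩
      · intro K b
        obtain ⟨n, hn, hA⟩ := hE K b
        refine ⟨n, hn, fun j hj hji hFj => hA j hj hji ?_⟩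
        unfold ufG
        by_cases hjn : j < i
        · rw [if_pos hjn]
          exact hFj
        · rw [if_neg hjn]
      · intro K b
        obtain ⟨n, hn, hA⟩ := ih K b
        refine ⟨n, hn, fun j hj hji hFj => hA j hj ?_ hFj⟩
        rcases lt_trichotomy j i with h | h | h
        · exact h
        · exfalso
          rw [h] at hFj
          have h1 : f i = 1 := of_decide_eq_true hFj
          rw [hb] at h1
          exact zero_ne_one h1
        · exfalso
          have := Z_disc hS h
          linarith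
  · intro i hi hFi
    have h1 : f i ≠ 1 := of_decide_eq_false hFi
    rcases hfQ i hi with ⟨hb, _⟩ | ⟨_, hE⟩
    · exact absurd hb h1
    · exact hE

end Pool.Agent.HTA
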