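import Mathlib
import Pool.Agent.HTA.Coh
import Pool.Agent.HTA.UF

/-!
A uniformly recurrent limit point.
-/

namespace Pool.Agent.HTA

universe u

variable {M : Type u} [CommSemiring M] [LinearOrder M] [IsStrictOrderedRing M]
  [CanonicallyOrderedAdd M] {S : Set (Set M)}

theorem exists_UR (hS : IsModelACA0 S) {c : ZM M → Bool} (hc : DF S c) :
    ∃ z : ZM M → Bool, DF S z ∧ LP c z ∧ UR z := by
  obtain ⟨dec, hd, hdec⟩ := coded_prod hS (coded_Z hS) (coded_Z hS)
  obtain ⟨F, hF, hExt, hmax⟩ := exists_F hS hc hd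
  have hR : DF S (fun x : ZM M × ZM M => (0 ≤ x.1 → (x.1 ≤ x.2 ∧ AvC c dec F x.1 c x.2 x.1))) := by
    simp only [imp_iff_not_or]
    fun_prop
  obtain ⟨nk, hnk, hnk1⟩ := choice hS
    (R := fun k n => (0 ≤ k → (k ≤ n ∧ AvC c dec F k c n k))) hR (by
      intro k
      by_cases hk : 0 ≤ k
      · obtain ⟨n, hn, hA⟩ := hExt k hk k k
        exact ⟨n, hk.trans hn, fun _ => ⟨hn, hA⟩⟩
      · exact ⟨0, le_refl 0, fun h => absurd h hk⟩)
  obtain ⟨φ, z, hφ, hz, hφk, hφz⟩ := coh hS (fun k a => c (nk k + a)) (by fun_prop)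
  have hnk2 : ∀ k, 0 ≤ k → k ≤ nk k := fun k hk => ((hnk1 k).2 hk).1
  have hnk3 : ∀ k, 0 ≤ k → AvC c dec F k c (nk k) k := fun k hk => ((hnk1 k).2 hk).2
  have hLP : LP c z := by
    intro m b
    have hk : 0 ≤ max (max m b) 0 := le_max_right _ _
    have h1 := hφk _ hk
    have h2 := hnk2 _ (hk.trans h1)
    refine ⟨nk (φ (max (max m b) 0)), ?_, ?_⟩
    · exact ((le_max_right m b).trans (le_max_left _ _)).trans (h1.trans h2)
    · intro a ha
      rw [zero_add]
      exact hφz _ hk a (ha.trans ((le_max_left m b).trans (le_max_left _ _)))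
  have havoid : ∀ i, 0 ≤ i → F i = true → ∀ r, ¬ Ag z c r (dec i).1 (dec i).2 := by
    intro i hi hFi r hA
    set k : ZM M := |r| + |(dec i).2| + (i + 1) with hk
    have hr0 := abs_nonneg r
    have hm0 := abs_nonneg (dec i).2
    have hm1 := le_abs_self (dec i).2
    have hk0 : 0 ≤ k := by rw [hk]; linarith
    have h1 := hφk k hk0
    have h2 := hnk3 (φ k) (hk0.trans h1)
    refine h2 i hi ?_ hFi (nk (φ k) + r) ?_ ?_
    · have : i < k := by rw [hk]; linarith
      exact this.trans_le h1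
    · have h3 : nk (φ k) + r - nk (φ k) = r := by ring
      rw [h3]
      refine le_trans ?_ h1
      rw [hk]
      linarith
    · intro a ha
      have h3 : |r + a| ≤ k := by
        have := abs_add_le r a
        rw [hk]
        linarith
      have h4 := hφz k hk0 (r + a) h3
      rw [add_assoc, h4]
      exact hA a ha
  refine ⟨z, hz, hLP, ?_⟩
  intro p m
  set m1 : ZM M := max m 0 with hm1
  have hm1n : 0 ≤ m1 := le_max_right _ _
  have hmm : m ≤ m1 := le_max_left _ _
  obtain ⟨n, hn, hAn⟩ := hLP (|p| + m1) 0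
  obtain ⟨i, hi, hdi⟩ := hdec (n + p, m1)
  have hA1 : Ag z c p (n + p) m1 := by
    have := hAn.symm.shift p (le_refl _)
    rw [zero_add] at this
    exact this
  have hFi : F i = false := by
    by_contra hcon
    rw [Bool.not_eq_false] at hcon
    refine havoid i hi hcon p ?_
    rw [hdi]
    exact hA1
  have hne := hmax i hi hFi
  unfold Ext at hne
  push Not at hne
  obtain ⟨K, b, hKb⟩ := hne
  have hK0 := abs_nonneg K
  have hK1 := le_abs_self K
  refine ⟨2 * |K|, fun q => ?_⟩
  set k : ZM M := |q| + |b| + 2 * |K| + (i + 1) with hk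
  have hq0 := abs_nonneg q
  have hq1 := le_abs_self q
  have hq2 := neg_abs_le q
  have hb0 := abs_nonneg b
  have hb1 := le_abs_self b
  have hk0 : 0 ≤ k := by rw [hk]; linarith
  have h1 := hφk k hk0
  have h2 := hnk3 (φ k) (hk0.trans h1)
  have h3 := hnk2 (φ k) (hk0.trans h1)
  have h4 := hKb (nk (φ k) + q + |K|) (by linarith)
  unfold AvC at h4
  push Not at h4
  obtain ⟨j, hj0, hji, hFj, r', hr', hA'⟩ := h4
  have h5 : |r' - nk (φ k)| ≤ |r' - (nk (φ k) + q + |K|)| + (|q| + |K|) := by
    have h6 : r' - nk (φ k) = (r' - (nk (φ k) + q + |K|)) + (q + |K|) := by ring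
    have h7 := abs_add_le (r' - (nk (φ k) + q + |K|)) (q + |K|)
    have h8 := abs_add_le q |K|
    rw [abs_abs] at h8
    rw [h6]
    linarith
  by_cases hlt : j < i
  · exfalso
    rw [if_pos hlt] at hFj
    refine h2 j hj0 ?_ hFj r' ?_ hA'
    · have : j < k := by rw [hk]; linarith
      exact this.trans_le h1
    · refine le_trans ?_ h1
      rw [hk]
      linarith
  · have hji' : j = i := by
      apply le_antisymm
      · by_contra hcon
        push Not at hcon
        have := Z_disc hS hcon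
        linarith
      · exact not_lt.1 hlt
    rw [hji', hdi] at hr' hA'
    simp only at hr' hA'
    have h6 := abs_le.1 (show |r' - (nk (φ k) + q + |K|)| ≤ |K| by linarith)
    refine ⟨r' - nk (φ k), by linarith [h6.1], by linarith [h6.2], ?_⟩
    intro a ha
    have ha1 : |a| ≤ m1 := ha.trans hmm
    have h7 : |r' - nk (φ k) + a| ≤ k := by
      have := abs_add_le (r' - nk (φ k)) a
      rw [hk]
      linarith
    have h8 := hφz k hk0 _ h7
    have h9 : nk (φ k) + (r' - nk (φ k) + a) = r' + a := by ring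
    rw [h9] at h8
    rw [← h8, hA' a ha1, hA1 a ha1]

end Pool.Agent.HTA
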