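import Mathlib
import Pool.Agent.HTA.Coh
import Pool.Agent.HTA.UZ
import Pool.Agent.HTA.MMt

/-!
Existence of the configuration.
-/

namespace Pool.Agent.HTA

universe u

variable {M : Type u} [CommSemiring M] [LinearOrder M] [IsStrictOrderedRing M]
  [CanonicallyOrderedAdd M] {S : Set (Set M)}

theorem exists_Cfg (hS : IsModelACA0 S) {c : ZM M → Bool} (hc : DF S c) (hN : NoSol S c) :
    ∃ (z t y w : ZM M → Bool) (v : ZM M → ZM M), Cfg S c z t y w v := by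
  obtain ⟨z, hz, hL, hU⟩ := exists_UR hS hc
  obtain ⟨v0, hv0, hv0'⟩ := choice (A := ZM M) hS (R := fun k n => k ≤ n ∧ Ag c z n 0 k)
    (by fun_prop) (fun k => by
      obtain ⟨n, hn, h⟩ := hL k (max k 0)
      exact ⟨n, (le_max_right _ _).trans hn, (le_max_left _ _).trans hn, h⟩)
  obtain ⟨φ1, t, hφ1, ht, hk1, h1⟩ := coh hS (fun k a => z (v0 k + a)) (by fun_prop)
  obtain ⟨φ2, y, hφ2, hy, hk2, h2⟩ := coh hS (fun k a => z (a - v0 (φ1 k))) (by fun_prop)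
  obtain ⟨φ3, w, hφ3, hw, hk3, h3⟩ := coh hS (fun k a => t (a - 2 * v0 (φ1 (φ2 k))))
    (by fun_prop)
  have e3 : ∀ k, 0 ≤ k → k ≤ φ3 k := hk3
  have e2 : ∀ k, 0 ≤ k → k ≤ φ2 (φ3 k) := fun k hk =>
    (e3 k hk).trans (hk2 _ (hk.trans (e3 k hk)))
  have e1 : ∀ k, 0 ≤ k → k ≤ φ1 (φ2 (φ3 k)) := fun k hk =>
    (e2 k hk).trans (hk1 _ (hk.trans (e2 k hk)))
  have e0 : ∀ k, 0 ≤ k → k ≤ v0 (φ1 (φ2 (φ3 k))) := fun k hk =>
    (e1 k hk).trans (hv0' _).2.1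
  refine ⟨z, t, y, w, fun k => v0 (φ1 (φ2 (φ3 k))), ?_⟩
  refine ⟨hS, hc, hz, ht, hy, hw, by fun_prop, hN, hU, hL, e0, ?_, ?_, ?_, ?_⟩
  · intro k hk a ha
    have := (hv0' (φ1 (φ2 (φ3 k)))).2.2 a (ha.trans (e1 k hk))
    simpa using this
  · intro k hk a ha
    exact h1 _ (hk.trans (e2 k hk)) a (ha.trans (e2 k hk))
  · intro k hk a ha
    exact h2 _ (hk.trans (e3 k hk)) a (ha.trans (e3 k hk))
  · intro k hk a ha
    exact h3 k hk a ha

theorem Cfg.mt {c z t y w : ZM M → Bool} {v : ZM M → ZM M} (h : Cfg S c z t y w v) :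
    MM z t := by
  intro p m
  have hk : 0 ≤ |p| + |m| := by positivity
  refine ⟨v (|p| + |m|) + p, fun a ha => ?_⟩
  have hb : |p + a| ≤ |p| + |m| :=
    (abs_add_le p a).trans (add_le_add le_rfl (ha.trans (le_abs_self m)))
  rw [add_assoc, h.h2 _ hk _ hb]

theorem Cfg.my {c z t y w : ZM M → Bool} {v : ZM M → ZM M} (h : Cfg S c z t y w v) :
    MM z y := by
  intro p m
  have hk : 0 ≤ |p| + |m| := by positivity
  refine ⟨p - v (|p| + |m|), fun a ha => ?_⟩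
  have hb : |p + a| ≤ |p| + |m| :=
    (abs_add_le p a).trans (add_le_add le_rfl (ha.trans (le_abs_self m)))
  rw [← h.h3 _ hk _ hb, sub_add_eq_add_sub]

theorem Cfg.mw {c z t y w : ZM M → Bool} {v : ZM M → ZM M} (h : Cfg S c z t y w v) :
    MM z w := by
  intro p m
  have hk : 0 ≤ |p| + |m| := by positivity
  obtain ⟨q, hq⟩ := h.mt (p - 2 * v (|p| + |m|)) m
  refine ⟨q, fun a ha => ?_⟩
  have hb : |p + a| ≤ |p| + |m| :=
    (abs_add_le p a).trans (add_le_add le_rfl (ha.trans (le_abs_self m)))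
  rw [← hq a ha, ← h.h4 _ hk _ hb, sub_add_eq_add_sub]

end Pool.Agent.HTA
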