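import Mathlib
import Pool.Agent.HTA.VV

/-!
Good windows.
-/

namespace Pool.Agent.HTA

universe u

variable {M : Type u} [CommSemiring M] [LinearOrder M] [IsStrictOrderedRing M]
  [CanonicallyOrderedAdd M] {S : Set (Set M)} {c z t y w : ZM M → Bool} {v : ZM M → ZM M}

/-- every window of `z` has a good centred extension in `z` -/
theorem good_ext (hS : IsModelACA0 S) (hc : DF S c) (hz : DF S z) (hN : NoSol S c)
    (p m : ZM M) (hm : 0 ≤ m) : ∃ q l, m ≤ l ∧ Ag z z q p m ∧ Good c z z q l := by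
  by_contra hcon
  push Not at hcon
  have hbad : ∀ q l, m ≤ l → Ag z z q p m → ∀ N, ∃ j' n, N ≤ n ∧ Ag z z j' q l ∧
      Ag c z n q l ∧ z (j' + n) = z q := by
    intro q l hl hq N
    by_contra h2
    push Not at h2
    exact hcon q l hl hq ⟨N, fun j' n hn h3 h4 h5 => h2 j' n hn h3 h4 h5⟩
  have hRd : DF S (fun x : ZM M × (ZM M × ZM M) × (ZM M × ZM M) =>
      (Ag z z x.2.1.1 p m → (|x.2.1.2| < x.2.2.2 ∧ Ag z z x.2.2.1 x.2.1.1 (m + |x.2.1.2|) ∧
        Ag c z x.2.2.2 x.2.1.1 (m + |x.2.1.2|) ∧ z (x.2.2.1 + x.2.2.2) = z p))) := by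
    simp only [imp_iff_not_or]
    fun_prop
  obtain ⟨f, hf, hf0, hfs⟩ := dc_state hS (coded_prod hS (coded_Z hS) (coded_Z hS))
    (fun (_ : ZM M) (a b : ZM M × ZM M) => (Ag z z a.1 p m → (|a.2| < b.2 ∧
        Ag z z b.1 a.1 (m + |a.2|) ∧ Ag c z b.2 a.1 (m + |a.2|) ∧ z (b.1 + b.2) = z p)))
    hRd (p, 0) (by
      rintro i - ⟨j, n⟩
      by_cases hj : Ag z z j p m
      · obtain ⟨j', n', h1, h2, h3, h4⟩ := hbad j (m + |n|)
          (le_add_of_nonneg_right (abs_nonneg n)) hj (|n| + 1)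
        refine ⟨(j', n'), fun _ => ⟨lt_of_lt_of_le (lt_add_one _) h1, h2, h3, ?_⟩⟩
        rw [h4]
        exact hj.val0 hm
      · exact ⟨(j, n), fun h => absurd h hj⟩)
  have hinv : ∀ i, 0 ≤ i → Ag z z (f i).1 p m := by
    apply Z_ind hS (p := fun i => Ag z z (f i).1 p m) (by fun_prop)
    · rw [hf0]
      exact fun a _ => rfl
    · intro i hi hAg
      obtain ⟨h1, h2, h3, h4⟩ := hfs i hi hAg
      exact (h2.mono (le_add_of_nonneg_right (abs_nonneg _))).trans hAg
  have hstep : ∀ i, 0 ≤ i → |(f i).2| < (f (i + 1)).2 ∧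
      Ag z z (f (i + 1)).1 (f i).1 (m + |(f i).2|) ∧
      Ag c z (f (i + 1)).2 (f i).1 (m + |(f i).2|) ∧ z ((f (i + 1)).1 + (f (i + 1)).2) = z p :=
    fun i hi => hfs i hi (hinv i hi)
  have hmono : ∀ i, 0 ≤ i → ∀ k, 0 ≤ k → |(f i).2| ≤ |(f (i + k)).2| ∧
      Ag z z (f (i + k)).1 (f i).1 (m + |(f i).2|) := by
    intro i hi
    apply Z_ind hS (p := fun k => |(f i).2| ≤ |(f (i + k)).2| ∧
      Ag z z (f (i + k)).1 (f i).1 (m + |(f i).2|)) (by fun_prop)
    · rw [add_zero]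
      exact ⟨le_rfl, fun a _ => rfl⟩
    · rintro k hk ⟨h1, h2⟩
      obtain ⟨h3, h4, -, -⟩ := hstep (i + k) (add_nonneg hi hk)
      rw [← add_assoc]
      refine ⟨h1.trans (h3.le.trans (le_abs_self _)), (h4.mono ?_).trans h2⟩
      linarith
  have hpos : ∀ i, 1 ≤ i → 0 < (f i).2 := by
    intro i hi
    have h1 := (hstep (i - 1) (by linarith)).1
    rw [sub_add_cancel] at h1
    exact lt_of_le_of_lt (abs_nonneg _) h1
  have hge : ∀ i, 0 ≤ i → i ≤ (f i).2 := by
    apply Z_ind hS (p := fun i => i ≤ (f i).2) (by fun_prop)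
    · rw [hf0]
    · intro i hi h1
      have h2 := (hstep i hi).1
      have h3 := Z_disc hS h2
      have h4 := le_abs_self (f i).2
      linarith
  have hlt : ∀ i k, 0 ≤ i → i < k → (f i).2 < (f k).2 := by
    intro i k hi hik
    have hik' := Z_disc hS hik
    have h1 := (hmono i hi (k - 1 - i) (by linarith)).1
    have h2 := (hstep (k - 1) (by linarith)).1
    rw [sub_add_cancel] at h2
    rw [show i + (k - 1 - i) = k - 1 by ring] at h1
    exact lt_of_le_of_lt ((le_abs_self _).trans h1) h2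
  have hsum : ∀ i k, 1 ≤ i → i < k → c ((f k).2 + (f i).2) = z p := by
    intro i k hi hik
    have hik' := Z_disc hS hik
    obtain ⟨h1, h2⟩ := hmono i (by linarith) (k - 1 - i) (by linarith)
    rw [show i + (k - 1 - i) = k - 1 by ring] at h1 h2
    obtain ⟨-, -, h3, -⟩ := hstep (k - 1) (by linarith)
    rw [sub_add_cancel] at h3
    rw [h3.val (f i).2 (by linarith), h2.val (f i).2 (by linarith)]
    have h5 := (hstep (i - 1) (by linarith)).2.2.2
    rw [sub_add_cancel] at h5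
    exact h5
  apply hN
  refine ⟨fun u => ∃ i, 1 ≤ i ∧ u = (f i).2, by fun_prop, ?_, ?_, z p, ?_, ?_⟩
  · intro b
    refine ⟨(f (|b| + 1)).2, ⟨|b| + 1, by linarith [abs_nonneg b], rfl⟩, ?_⟩
    have h1 := hge (|b| + 1) (by linarith [abs_nonneg b])
    have h2 := le_abs_self b
    linarith
  · rintro x ⟨i, hi, rfl⟩
    exact hpos i hi
  · rintro x ⟨i, hi, rfl⟩
    obtain ⟨-, -, h3, -⟩ := hstep (i - 1) (by linarith)
    rw [sub_add_cancel] at h3
    rw [h3.val0 (add_nonneg hm (abs_nonneg _))]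
    exact (hinv (i - 1) (by linarith)).val0 hm
  · rintro x y ⟨i, hi, rfl⟩ ⟨k, hk, rfl⟩ hne
    rcases lt_trichotomy i k with h | h | h
    · rw [add_comm]
      exact hsum i k hi h
    · exact absurd (by rw [h]) hne
    · exact hsum k i hk h

/-- arbitrarily long intervals of good positions -/
theorem good_int (hS : IsModelACA0 S) (hc : DF S c) (hz : DF S z) (hN : NoSol S c)
    (K : ZM M) (hK : 0 ≤ K) : ∃ j l, 0 ≤ l ∧ ∀ i, 0 ≤ i → i < K → Good c z z (j + i) l := by
  revert K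
  apply Z_ind hS (p := fun K => ∃ j l, 0 ≤ l ∧ ∀ i, 0 ≤ i → i < K → Good c z z (j + i) l)
    (by
      simp only [imp_iff_not_or, all_iff]
      fun_prop)
  · exact ⟨0, 0, le_rfl, fun i hi hi' => absurd hi (not_le.2 hi')⟩
  · rintro K hK ⟨j, l, hl, hj⟩
    obtain ⟨q, l', hl', hq, hgood⟩ := good_ext hS hc hz hN (j + K) (l + K) (add_nonneg hl hK)
    refine ⟨q - K, l', by linarith, fun i hi hiK => ?_⟩
    rcases lt_or_ge i K with h | h
    · have h1 := hj i hi h
      have h2 : Ag z z (q + (i - K)) (j + K + (i - K)) l := by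
        apply hq.shift
        rw [abs_of_nonpos (by linarith)]
        linarith
      rw [show j + K + (i - K) = j + i by ring, show q + (i - K) = q - K + i by ring] at h2
      exact (h1.congr h2.symm hl).mono (by linarith)
    · have h1 : i = K := by
        apply le_antisymm _ h
        have := Z_disc hS hiK
        linarith
      rw [h1, sub_add_cancel]
      exact hgood

/-- such intervals occur syndetically in every element of the minimal system -/
theorem good_synd (h : Cfg S c z t y w v) {x : ZM M → Bool} (hx : MM z x) (K : ZM M)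
    (hK : 0 ≤ K) : ∃ l g, 0 ≤ l ∧ ∀ q, ∃ j, q ≤ j ∧ j ≤ q + g ∧
      ∀ i, 0 ≤ i → i < K → Good c z x (j + i) l := by
  obtain ⟨j0, l, hl, hj⟩ := good_int h.hS h.hc h.hz h.hN K hK
  obtain ⟨g, hg⟩ := MM_synd h.hU hx j0 (l + K)
  refine ⟨l, g, hl, fun q => ?_⟩
  obtain ⟨r, hr1, hr2, hr3⟩ := hg q
  refine ⟨r, hr1, hr2, fun i hi hiK => ?_⟩
  have h2 : Ag x z (r + i) (j0 + i) l := by
    apply hr3.shift
    rw [abs_of_nonneg hi]
    linarith
  exact (hj i hi hiK).congr h2.symm hl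

/-- goodness may be tested in every element of the minimal system -/
theorem good_transfer {x x' : ZM M → Bool} {n0 l : ZM M} (hl : 0 ≤ l)
    (hg : Good c z x n0 l) (hx' : MM z x') :
    ∃ N, ∀ j n, N ≤ n → Ag x' x j n0 l → Ag c x n n0 l → x' (j + n) ≠ x n0 := by
  obtain ⟨N, hN⟩ := hg
  refine ⟨N, fun j n hn h1 h2 => ?_⟩
  obtain ⟨q, hq⟩ := hx' j (l + |n|)
  have h3 : Ag z x q n0 l :=
    ((hq.mono (le_add_of_nonneg_right (abs_nonneg n))).symm).trans h1
  rw [hq.val n (le_add_of_nonneg_left hl)]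
  exact hN q n hn h3 h2

end Pool.Agent.HTA
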