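import Mathlib
import Pool.Agent.HTA.Dyn

/-!
Property (A) of limit points.
-/

namespace Pool.Agent.HTA

universe u

variable {M : Type u} [CommSemiring M] [LinearOrder M] [IsStrictOrderedRing M]
  [CanonicallyOrderedAdd M] {S : Set (Set M)}

theorem propA (hS : IsModelACA0 S) {c x : ZM M → Bool} (hc : DF S c) (hN : NoSol S c)
    (hx : DF S x) (a : ZM M) : ∃ m, ∀ n, m ≤ n → Ag c x n 0 m → x (n + 2 * a) ≠ x a := by
  by_contra hcon
  push Not at hcon
  obtain ⟨f, hf, hf0, hfR⟩ := dc_state hS (coded_Z hS)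
    (fun _ n n' => |n| + 2 * |a| + 1 ≤ n' ∧ Ag c x n' 0 (|n| + 2 * |a| + 1) ∧
      x (n' + 2 * a) = x a) (by fun_prop) 0
    (fun i _ n => by
      obtain ⟨n', h1, h2, h3⟩ := hcon (|n| + 2 * |a| + 1)
      exact ⟨n', h1, h2, h3⟩)
  have ha0 := abs_nonneg a
  have hge : ∀ i, 0 ≤ i → i ≤ f i := by
    refine Z_ind hS (by fun_prop) (by rw [hf0]) ?_
    intro n hn ih
    have h1 := (hfR n hn).1
    have h2 := le_abs_self (f n)
    linarith
  have hnn : ∀ i, 0 ≤ i → 0 ≤ f i := fun i hi => hi.trans (hge i hi)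
  have hmono : ∀ d, 0 ≤ d → ∀ i, 0 ≤ i → f i ≤ f (i + d) := by
    refine Z_ind hS ?_ ?_ ?_
    · simp only [imp_iff_not_or, all_iff]
      fun_prop
    · intro i _
      rw [add_zero]
    · intro n hn ih i hi
      have h1 := ih i hi
      have h2 := (hfR (i + n) (by linarith)).1
      have h3 := le_abs_self (f (i + n))
      have h4 : i + (n + 1) = i + n + 1 := by ring
      rw [h4]
      linarith
  have hmono' : ∀ i j, 0 ≤ i → i ≤ j → f i ≤ f j := by
    intro i j hi hij
    have := hmono (j - i) (by linarith) i hi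
    rwa [add_sub_cancel] at this
  have hstep : ∀ i, 1 ≤ i → |f (i - 1)| + 2 * |a| + 1 ≤ f i ∧
      Ag c x (f i) 0 (|f (i - 1)| + 2 * |a| + 1) ∧ x (f i + 2 * a) = x a := by
    intro i hi
    have := hfR (i - 1) (by linarith)
    rwa [sub_add_cancel] at this
  have hsum : ∀ i j, 1 ≤ i → i < j → c (a + f i + (a + f j)) = x a := by
    intro i j hi hij
    obtain ⟨_, h2, _⟩ := hstep j (by linarith)
    obtain ⟨_, _, h6⟩ := hstep i hi
    have h7 : f i ≤ f (j - 1) := by
      refine hmono' i (j - 1) (by linarith) ?_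
      have := Z_disc hS hij
      linarith
    have h8 := hnn i (by linarith)
    have h9 : |2 * a + f i| ≤ |f (j - 1)| + 2 * |a| + 1 := by
      calc |2 * a + f i| ≤ |2 * a| + |f i| := abs_add_le _ _
        _ = 2 * |a| + f i := by rw [abs_mul, abs_of_nonneg h8]; norm_num
        _ ≤ |f (j - 1)| + 2 * |a| + 1 := by
          have := le_abs_self (f (j - 1))
          linarith
    have h10 := h2.val (2 * a + f i) h9
    have h11 : a + f i + (a + f j) = f j + (2 * a + f i) := by ring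
    rw [h11, h10, zero_add, add_comm (2 * a) (f i)]
    exact h6
  apply hN
  refine ⟨fun u => ∃ i, 1 ≤ i ∧ u = a + f i, by fun_prop, ?_, ?_, x a, ?_, ?_⟩
  · intro b
    refine ⟨a + f (max 1 (b - a + 1)), ⟨max 1 (b - a + 1), le_max_left _ _, rfl⟩, ?_⟩
    have h1 := hge (max 1 (b - a + 1)) (le_trans zero_le_one (le_max_left _ _))
    have h2 := le_max_right 1 (b - a + 1)
    linarith
  · rintro u ⟨i, hi, rfl⟩
    have h1 := (hstep i hi).1
    have h2 := abs_nonneg (f (i - 1))
    have h3 := neg_abs_le a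
    linarith
  · rintro u ⟨i, hi, rfl⟩
    obtain ⟨_, h2, _⟩ := hstep i hi
    have h4 : |a| ≤ |f (i - 1)| + 2 * |a| + 1 := by
      have := abs_nonneg (f (i - 1))
      linarith
    have h3 := h2.val a h4
    rw [add_comm a (f i), h3, zero_add]
  · rintro u v ⟨i, hi, rfl⟩ ⟨j, hj, rfl⟩ hne
    rcases lt_trichotomy i j with h | h | h
    · exact hsum i j hi h
    · exact absurd (by rw [h]) hne
    · rw [add_comm]
      exact hsum j i hj h

theorem propA_unif (hS : IsModelACA0 S) {c x : ZM M → Bool} (hc : DF S c) (hN : NoSol S c)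
    (hx : DF S x) (K : ZM M) :
    ∃ m, ∀ a, |a| ≤ K → ∀ n, m ≤ n → Ag c x n 0 m → x (n + 2 * a) ≠ x a := by
  obtain ⟨m, hm⟩ := bounding hS
    (Q := fun a m => ∀ n, m ≤ n → Ag c x n 0 m → x (n + 2 * a) ≠ x a)
    (by simp only [imp_iff_not_or, all_iff, ne_eq]; fun_prop)
    (fun a b b' hb h n hn hA => h n (hb.trans hn) (hA.mono hb)) (-K) K
    (fun a _ _ => propA hS hc hN hx a)
  exact ⟨m, fun a ha => hm a (abs_le.mp ha).1 (abs_le.mp ha).2⟩

end Pool.Agent.HTA
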