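import Mathlib
import Pool.Agent.HTA.LA
import Pool.Agent.HTA.VV

/-!
The relations between the limit points and the recurrence of the pair `(w, y)`.
-/

namespace Pool.Agent.HTA

universe u

variable {M : Type u} [CommSemiring M] [LinearOrder M] [IsStrictOrderedRing M]
  [CanonicallyOrderedAdd M] {S : Set (Set M)} {c z t y w : ZM M → Bool} {v : ZM M → ZM M}

theorem t_ne (h : Cfg S c z t y w v) (a : ZM M) : t (2 * a) ≠ z a := by
  obtain ⟨m, hm⟩ := propA h.hS h.hc h.hN h.hz a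
  set k : ZM M := max (max m |2 * a|) 0 with hk
  have hk0 : 0 ≤ k := le_max_right _ _
  have hkm : m ≤ k := (le_max_left _ _).trans (le_max_left _ _)
  have hka : |2 * a| ≤ k := (le_max_right _ _).trans (le_max_left _ _)
  have h1 := hm (v k) (hkm.trans (h.hk k hk0))
    (fun b hb => by rw [h.h1 k hk0 b (hb.trans hkm), zero_add])
  rw [h.h2 k hk0 _ hka] at h1
  exact h1

theorem w_ne (h : Cfg S c z t y w v) (a : ZM M) : w (2 * a) ≠ y a := by
  set k : ZM M := |2 * a| + |a| with hk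
  have h0 := abs_nonneg a
  have h0' := abs_nonneg (2 * a)
  have hk0 : 0 ≤ k := by rw [hk]; linarith
  have h1 := t_ne h (a - v k)
  rw [h.h3 k hk0 a (by rw [hk]; linarith)] at h1
  have h2 : 2 * (a - v k) = 2 * a - 2 * v k := by ring
  rw [h2, h.h4 k hk0 (2 * a) (by rw [hk]; linarith)] at h1
  exact h1

theorem ww_bool {a b d : Bool} (h1 : a ≠ b) (h2 : a ≠ d) : b = d := by
  cases a <;> cases b <;> cases d <;> simp_all

theorem r2 (h : Cfg S c z t y w v) (m : ZM M) :
    ∃ m', ∀ k, Ag w w (2 * k) 0 m' → Ag w w k 0 m ∧ Ag y y k 0 m := by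
  obtain ⟨m1, hm1⟩ := propA_unif h.hS h.hc h.hN h.hw m
  refine ⟨max m1 (2 * m), fun k hk => ⟨?_, ?_⟩⟩
  · intro a ha
    obtain ⟨mb, hmb⟩ := propA h.hS h.hc h.hN h.hw (a + k)
    have hLw : LP c w := MM_LP h.hL h.mw
    have hk0 := abs_nonneg (2 * k)
    have hk1 := neg_abs_le (2 * k)
    obtain ⟨n, hn, hA⟩ := hLw (max mb (m1 + |2 * k|)) (max mb (m1 + |2 * k|))
    have h1 := hmb n ((le_max_left _ _).trans hn) (hA.mono (le_max_left _ _))
    have hk' : Ag w w (2 * k) 0 m1 := hk.mono (le_max_left _ _)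
    have h2 := hm1 a ha (n + 2 * k)
      (by linarith [(le_max_right mb (m1 + |2 * k|)).trans hn])
      (by
        intro i hi
        have h3 : |2 * k + i| ≤ m1 + |2 * k| := by
          have := abs_add_le (2 * k) i
          linarith
        rw [add_assoc, hA (2 * k + i) (h3.trans (le_max_right _ _)), zero_add]
        exact hk' i hi)
    have h4 : n + 2 * k + 2 * a = n + 2 * (a + k) := by ring
    rw [h4] at h2
    have h5 := ww_bool h1 h2
    rw [zero_add, add_comm k a]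
    exact h5
  · intro a ha
    have h1 := w_ne h (k + a)
    have h2 := w_ne h a
    have h3 : |2 * a| ≤ max m1 (2 * m) := by
      rw [abs_mul, abs_two]
      refine le_trans ?_ (le_max_right _ _)
      linarith
    have h4 := hk (2 * a) h3
    have h5 : 2 * k + 2 * a = 2 * (k + a) := by ring
    rw [h5, zero_add] at h4
    rw [h4] at h1
    rw [zero_add]
    exact ww_bool h1 h2

theorem even_rec (h : Cfg S c z t y w v) (m : ZM M) :
    ∃ g, ∀ q, ∃ k, q ≤ k ∧ k ≤ q + g ∧ Ag w w (2 * k) 0 m := by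
  have hUw : UR w := MM_UR h.hU h.mw
  by_cases hcase : ∃ m0, ∀ r, Ag w w r 0 m0 → ∃ k, r = 2 * k
  · obtain ⟨m0, hm0⟩ := hcase
    obtain ⟨g, hg⟩ := hUw 0 (max m m0)
    refine ⟨g, fun q => ?_⟩
    obtain ⟨r, hr1, hr2, hA⟩ := hg (2 * q)
    obtain ⟨k, rfl⟩ := hm0 r (hA.mono (le_max_right _ _))
    exact ⟨k, by linarith, by linarith, hA.mono (le_max_left _ _)⟩
  · push Not at hcase
    obtain ⟨k0, hk0, hodd⟩ := hcase m
    obtain ⟨c0, hc0 | hc0⟩ := parity h.hS k0
    · exact absurd hc0 (hodd c0)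
    · have ha0 := abs_nonneg k0
      have ha1 := le_abs_self k0
      have ha2 := neg_abs_le k0
      obtain ⟨g, hg⟩ := hUw 0 (|k0| + m)
      refine ⟨2 * |k0| + g, fun q => ?_⟩
      obtain ⟨r, hr1, hr2, hA⟩ := hg (2 * q + |k0|)
      obtain ⟨k, hk | hk⟩ := parity h.hS r
      · subst hk
        exact ⟨k, by linarith, by linarith, hA.mono (by linarith)⟩
      · have h1 : Ag w w (r + k0) (0 + k0) m := hA.shift k0 (le_refl _)
        rw [zero_add] at h1
        have h2 : Ag w w (r + k0) 0 m := h1.trans hk0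
        have h3 : r + k0 = 2 * (k + c0 + 1) := by rw [hk, hc0]; ring
        rw [h3] at h2
        exact ⟨k + c0 + 1, by linarith, by linarith, h2⟩

theorem pair_rec (h : Cfg S c z t y w v) (m : ZM M) :
    ∃ g, ∀ q, ∃ k, q ≤ k ∧ k ≤ q + g ∧ Ag w w k 0 m ∧ Ag y y k 0 m := by
  obtain ⟨m', hm'⟩ := r2 h m
  obtain ⟨g, hg⟩ := even_rec h m'
  refine ⟨g, fun q => ?_⟩
  obtain ⟨k, hk1, hk2, hk3⟩ := hg q
  exact ⟨k, hk1, hk2, hm' k hk3⟩

end Pool.Agent.HTA
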