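import Mathlib
import Pool.Agent.HTA.WW
import Pool.Agent.HTA.GG

/-!
The final contradiction.
-/

namespace Pool.Agent.HTA

universe u

variable {M : Type u} [CommSemiring M] [LinearOrder M] [IsStrictOrderedRing M]
  [CanonicallyOrderedAdd M] {S : Set (Set M)} {c z t y w : ZM M → Bool} {v : ZM M → ZM M}

theorem cc_abs3 (a b d : ZM M) : |a + b + d| ≤ |a| + |b| + |d| :=
  (abs_add_le _ _).trans (add_le_add (abs_add_le _ _) le_rfl)

/-- no difference of two elements of `T` is a difference of occurrences in `t` -/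
theorem no_diff (h : Cfg S c z t y w v) {n0 l : ZM M} (hl : 0 ≤ l) (hgw : Good c z w n0 l)
    (hgy : Good c z y n0 l) (hne : w n0 ≠ y n0) {τ τ' j0 j1 : ZM M}
    (h1 : Ag w w τ n0 l) (h2 : Ag y y τ' n0 l) (h3 : Ag t w j0 n0 l) (h4 : Ag t y j1 n0 l) :
    τ + j0 ≠ τ' + j1 := by
  obtain ⟨N0, hN0⟩ := good_transfer (c := c) hl hgw h.mt
  obtain ⟨N1, hN1⟩ := good_transfer (c := c) hl hgy h.mt
  have aτ := abs_nonneg τ
  have aτ' := abs_nonneg τ'
  have aj0 := abs_nonneg j0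
  -- the first index
  obtain ⟨k, hk⟩ : ∃ k : ZM M, k = |τ| + |τ'| + |j0| + l := ⟨_, rfl⟩
  have hk0 : 0 ≤ k := by linarith
  set V := v k with hV
  have aV := abs_nonneg V
  have aN0 := le_abs_self N0
  have aN1 := le_abs_self N1
  have bN0 := abs_nonneg N0
  have bN1 := abs_nonneg N1
  obtain ⟨k2, hk2⟩ : ∃ k2 : ZM M, k2 = |N0| + |N1| + |V| + |j0| + |τ'| + l := ⟨_, rfl⟩
  have hk20 : 0 ≤ k2 := by linarith
  have hvk2 := h.hk k2 hk20
  have cV1 := neg_abs_le V
  have cV2 := le_abs_self V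
  have cj := neg_abs_le j0
  have cτ' := neg_abs_le τ'
  -- first inequality
  have e1 : Ag t w (τ - 2 * V) n0 l := by
    intro a ha
    have hb : |τ + a| ≤ k := (abs_add_le τ a).trans (by linarith)
    have e2 := h.h4 k hk0 (τ + a) hb
    have e3 := h1 a ha
    have e4 : τ - 2 * V + a = τ + a - 2 * v k := by rw [hV]; ring
    rw [e4, e2, e3]
  have e5 : Ag c w (v k2 + V + j0) n0 l := by
    intro a ha
    have hb1 : |V + j0 + a| ≤ k2 := (cc_abs3 V j0 a).trans (by linarith)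
    have hb2 : |j0 + a| ≤ k := (abs_add_le j0 a).trans (by linarith)
    have e2 := h.h1 k2 hk20 (V + j0 + a) hb1
    have e3 := h.h2 k hk0 (j0 + a) hb2
    have e4 := h3 a ha
    have e6 : v k2 + V + j0 + a = v k2 + (V + j0 + a) := by ring
    have e7 : V + j0 + a = v k + (j0 + a) := by rw [hV]; ring
    rw [e6, e2, e7, e3, e4]
  have r1 := hN0 (τ - 2 * V) (v k2 + V + j0) (by linarith) e1 e5
  -- second inequality
  have e8 : Ag c y (v k2 - V + τ') n0 l := by
    intro a ha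
    have hb1 : |-V + τ' + a| ≤ k2 := (cc_abs3 (-V) τ' a).trans (by rw [abs_neg]; linarith)
    have hb2 : |τ' + a| ≤ k := (abs_add_le τ' a).trans (by linarith)
    have e2 := h.h1 k2 hk20 (-V + τ' + a) hb1
    have e3 := h.h3 k hk0 (τ' + a) hb2
    have e4 := h2 a ha
    have e6 : v k2 - V + τ' + a = v k2 + (-V + τ' + a) := by ring
    have e7 : -V + τ' + a = (τ' + a) - v k := by rw [hV]; ring
    rw [e6, e2, e7, e3, e4]
  have r2' := hN1 j1 (v k2 - V + τ') (by linarith) h4 e8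
  intro heq
  have e9 : τ - 2 * V + (v k2 + V + j0) = (τ + j0) - V + v k2 := by ring
  have e10 : j1 + (v k2 - V + τ') = (τ' + j1) - V + v k2 := by ring
  rw [e9, heq] at r1
  rw [e10] at r2'
  revert r1 r2' hne
  cases t (τ' + j1 - V + v k2) <;> cases w n0 <;> cases y n0 <;> simp

/-- differences of elements of the sequence `v` are differences of occurrences in `t` -/
theorem occ_diff (h : Cfg S c z t y w v) (n0 l k : ZM M) (hk : |n0| + |l| ≤ k) :
    ∃ K, ∀ k', K ≤ k' → ∃ j, Ag t y j n0 l ∧ Ag t w (j + (v k' - v k)) n0 l := by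
  have an := abs_nonneg n0
  have al := abs_nonneg l
  have hl := le_abs_self l
  have hk0 : 0 ≤ k := by linarith
  set V := v k with hV
  have aV := abs_nonneg (2 * V)
  refine ⟨|n0| + |2 * V| + |l|, fun k' hk' => ?_⟩
  have hk'0 : 0 ≤ k' := by linarith
  obtain ⟨g, hg⟩ := MM_synd h.hU h.mt (n0 - V) (|v k' - V| + |l|)
  obtain ⟨r, _, _, hr⟩ := hg 0
  refine ⟨r, ?_, ?_⟩
  · intro a ha
    have hb : |n0 + a| ≤ k := (abs_add_le n0 a).trans (by linarith)
    have e1 := hr a (by have := abs_nonneg (v k' - V); linarith)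
    have e2 := h.h3 k hk0 (n0 + a) hb
    have e3 : n0 - V + a = n0 + a - v k := by rw [hV]; ring
    rw [e1, e3, e2]
  · intro a ha
    have hb : |n0 + a| ≤ k := (abs_add_le n0 a).trans (by linarith)
    have hb1 : |v k' - V + a| ≤ |v k' - V| + |l| := (abs_add_le _ _).trans (by linarith)
    have hb2 : |n0 + -(2 * V) + a| ≤ k' :=
      (cc_abs3 n0 (-(2 * V)) a).trans (by rw [abs_neg]; linarith)
    have e1 := hr (v k' - V + a) hb1
    have e2 := h.h2 k' hk'0 (n0 + -(2 * V) + a) hb2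
    have e3 := h.h4 k hk0 (n0 + a) hb
    have e4 : r + (v k' - V) + a = r + (v k' - V + a) := by ring
    have e5 : n0 - V + (v k' - V + a) = v k' + (n0 + -(2 * V) + a) := by ring
    have e6 : n0 + -(2 * V) + a = n0 + a - 2 * v k := by rw [hV]; ring
    rw [e4, e1, e5, e2, e6, e3]

theorem Cfg.false {n0 l : ZM M} (h : Cfg S c z t y w v) (hl : 0 ≤ l)
    (hgw : Good c z w n0 l) (hgy : Good c z y n0 l) (hne : w n0 ≠ y n0) : False := by
  obtain ⟨g, hg⟩ := pair_rec h (|n0| + l)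
  have hT : ∀ q, ∃ τ, q ≤ τ ∧ τ ≤ q + g ∧ Ag w w τ n0 l ∧ Ag y y τ n0 l := by
    intro q
    obtain ⟨k, hk1, hk2, hw, hy⟩ := hg (q - n0)
    refine ⟨n0 + k, by linarith, by linarith, ?_, ?_⟩
    · intro a ha
      have e1 := hw (n0 + a) ((abs_add_le n0 a).trans (by linarith))
      have e2 : n0 + k + a = k + (n0 + a) := by ring
      rw [e2, e1, zero_add]
    · intro a ha
      have e1 := hy (n0 + a) ((abs_add_le n0 a).trans (by linarith))
      have e2 : n0 + k + a = k + (n0 + a) := by ring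
      rw [e2, e1, zero_add]
  -- one shift works for arbitrarily large indices
  obtain ⟨r, hr⟩ : ∃ r, ∀ b, ∃ k, b ≤ k ∧ Ag w w (v k + r) n0 l ∧ Ag y y (v k + r) n0 l := by
    by_contra hno
    have hno' : ∀ r, ∃ b, ∀ k, b ≤ k → ¬ (Ag w w (v k + r) n0 l ∧ Ag y y (v k + r) n0 l) := by
      intro r
      by_contra hc
      refine hno ⟨r, fun b => ?_⟩
      by_contra hc2
      refine hc ⟨b, fun k hk h12 => hc2 ⟨k, hk, h12.1, h12.2⟩⟩
    have hDF : DF S (fun x : ZM M × ZM M => (fun r b : ZM M => ∀ k, b ≤ k →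
        ¬ (Ag w w (v k + r) n0 l ∧ Ag y y (v k + r) n0 l)) x.1 x.2) := by
      have h1 := h.hw
      have h2 := h.hy
      have h3 := h.hv
      simp only [imp_iff_not_or, all_iff]
      fun_prop
    obtain ⟨b, hb⟩ := bounding h.hS
      (Q := fun r b : ZM M => ∀ k, b ≤ k → ¬ (Ag w w (v k + r) n0 l ∧ Ag y y (v k + r) n0 l))
      hDF (fun a b b' hbb' hQ k hk => hQ k (hbb'.trans hk)) 0 g (fun r _ _ => hno' r)
    obtain ⟨τ, hτ1, hτ2, hτ3, hτ4⟩ := hT (v b)
    refine hb (τ - v b) (by linarith) (by linarith) b le_rfl ⟨?_, ?_⟩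
    · rwa [add_sub_cancel]
    · rwa [add_sub_cancel]
  obtain ⟨k, hk, hkw, _⟩ := hr (|n0| + |l|)
  obtain ⟨K, hK⟩ := occ_diff h n0 l k hk
  obtain ⟨k', hk', _, hky'⟩ := hr K
  obtain ⟨j, hj1, hj2⟩ := hK k' hk'
  refine no_diff h hl hgw hgy hne hkw hky' hj2 hj1 ?_
  ring

end Pool.Agent.HTA
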