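import Mathlib
import Pool.Agent.HTA.WW
import Pool.Agent.HTA.GG

/-!
The two good windows.
-/

namespace Pool.Agent.HTA

universe u

variable {M : Type u} [CommSemiring M] [LinearOrder M] [IsStrictOrderedRing M]
  [CanonicallyOrderedAdd M] {S : Set (Set M)} {c z t y w : ZM M → Bool} {v : ZM M → ZM M}

theorem two_good (h : Cfg S c z t y w v) :
    ∃ n0 l, 0 ≤ l ∧ Good c z w n0 l ∧ Good c z y n0 l ∧ w n0 ≠ y n0 := by
  have h0 : w 0 ≠ y 0 := by
    have := w_ne h 0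
    rwa [mul_zero] at this
  obtain ⟨g0, hg0⟩ := pair_rec h 0
  have hg0' : 0 ≤ g0 := by
    obtain ⟨k, h1, h2, -, -⟩ := hg0 0
    linarith
  obtain ⟨l1, _, hl1, H1⟩ := good_synd h h.my (g0 + 1) (by linarith)
  obtain ⟨j1, -, -, H1'⟩ := H1 0
  obtain ⟨n1, h1a, h1b, h1w, h1y⟩ := hg0 j1
  have hG1 : Good c z y n1 l1 := by
    have := H1' (n1 - j1) (by linarith) (by linarith)
    rwa [add_sub_cancel] at this
  have hw1 : w n1 = w 0 := h1w.val0 le_rfl
  have hy1 : y n1 = y 0 := h1y.val0 le_rfl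
  obtain ⟨g1, hg1⟩ := pair_rec h (|n1| + l1)
  have hg1' : 0 ≤ g1 := by
    obtain ⟨k, h1, h2, -, -⟩ := hg1 0
    linarith
  obtain ⟨l2, _, hl2, H2⟩ := good_synd h h.mw (g1 + 1) (by linarith)
  obtain ⟨j2, -, -, H2'⟩ := H2 0
  obtain ⟨k, h2a, h2b, h2w, h2y⟩ := hg1 (j2 - n1)
  have hG2 : Good c z w (k + n1) l2 := by
    have := H2' (k + n1 - j2) (by linarith) (by linarith)
    rwa [add_sub_cancel] at this
  have hwA : Ag w w (k + n1) n1 l1 := by
    have := h2w.shift n1 le_rfl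
    rwa [zero_add] at this
  have hyA : Ag y y (k + n1) n1 l1 := by
    have := h2y.shift n1 le_rfl
    rwa [zero_add] at this
  refine ⟨k + n1, max l1 l2, le_max_of_le_left hl1, hG2.mono (le_max_right _ _),
    (hG1.congr hyA.symm hl1).mono (le_max_left _ _), ?_⟩
  rw [hwA.val0 hl1, hyA.val0 hl1, hw1, hy1]
  exact h0

end Pool.Agent.HTA
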