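import Mathlib
import Pool.Agent.HTA.QQ
import Pool.Agent.HTA.CC

/-!
Hindman's theorem for two colours and sums of at most two elements holds in every model of `ACA_0`.
-/

namespace Pool.Agent.HTA

universe u

variable {M : Type u} [CommSemiring M] [LinearOrder M] [IsStrictOrderedRing M]
  [CanonicallyOrderedAdd M] {S : Set (Set M)}

theorem not_noSol (hS : IsModelACA0 S) {c : ZM M → Bool} (hc : DF S c) : ¬ NoSol S c := by
  intro hN
  obtain ⟨z, t, y, w, v, h⟩ := exists_Cfg hS hc hN
  obtain ⟨n0, l, hl, h1, h2, h3⟩ := two_good h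
  exact h.false hl h1 h2 h3

theorem holdsHT22 (hS : IsModelACA0 S) : HoldsHT22 S := by
  intro c0 hc0
  classical
  let c : ZM M → Bool := fun x => decide (∃ a : M, x = ofM a ∧ a ∈ {n | c0 n = true})
  have hm : DF S (fun n : M => n ∈ {n | c0 n = true}) := DF_mem hc0
  have hc : DF S c := by
    apply DF_decide
    apply DF_ex
    apply DF_and
    · fun_prop
    · exact DF_comp hm (by fun_prop)
  have hcc : ∀ a : M, c (ofM a) = c0 a := by
    intro a
    simp only [c, ofM_inj, exists_eq_left', Set.mem_setOf_eq]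
    cases c0 a <;> simp
  have := not_noSol hS hc
  unfold NoSol at this
  push Not at this
  obtain ⟨X, hX, h1, h2, i, h3, h4⟩ := this
  refine ⟨{a | X (ofM a)}, mem_of_DF hS (DF_comp hX (by fun_prop)), ?_, ?_, i, ?_, ?_⟩
  · intro b
    obtain ⟨x, hx, hb⟩ := h1 (ofM b)
    obtain ⟨a, rfl⟩ := exists_ofM (h2 x hx).le
    exact ⟨a, hx, by simpa using hb⟩
  · intro x hx
    have := h2 _ hx
    rwa [← ofM_zero, ofM_lt] at this
  · intro x hx
    rw [← hcc]; exact h3 _ hx
  · intro x hx y hy hne
    rw [← hcc, ofM_add]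
    exact h4 _ _ hx hy (by simpa using hne)

end Pool.Agent.HTA
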